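import Pool.Agent.Lib.CH48.B_KIT

namespace Pool.Agent.Lib.CH48

namespace BLK

variable {κ ι : Type} [Fintype κ] [DecidableEq κ] [Fintype ι] [DecidableEq ι]

/-- indices whose position lies in `B` -/
def ix (p : κ → ι × ι) (B : Finset (ι × ι)) : Finset κ := Finset.univ.filter fun s => p s ∈ B

/-- multiplicity of a position -/
def nu (p : κ → ι × ι) (e : ι × ι) : ℕ := (Finset.univ.filter fun s => p s = e).card

/-- coefficients of the square of a signed sum over `B` -/
def cb (B : Finset (ι × ι)) (α : ι × ι → ℂ) : ι × ι → ι × ι → ℂ :=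
  fun e f => if e ∈ B ∧ f ∈ B then α e * α f else 0

/-- all positions in the rows of `R` -/
def rows (R : Finset ι) : Finset (ι × ι) := Finset.univ.filter fun e => e.1 ∈ R

/-- the inductive statement -/
def OK (p : κ → ι × ι) (B : Finset (ι × ι)) (c : ι × ι → ι × ι → ℂ) : Prop :=
  Tri (ix p B) (fun s t => c (p s) (p t))

theorem card_ix (p : κ → ι × ι) (B : Finset (ι × ι)) : (ix p B).card = ∑ e ∈ B, nu p e := by
  rw [Finset.card_eq_sum_card_fiberwise (f := p) (t := B) (by
    intro s hs
    simpa [ix] using hs)]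
  refine Finset.sum_congr rfl fun e he => ?_
  unfold nu
  congr 1
  ext s
  simp only [ix, Finset.mem_filter, Finset.mem_univ, true_and]
  constructor
  · exact fun h => h.2
  · exact fun h => ⟨h ▸ he, h⟩

theorem ok_block (hSQ : St_SQ) (p : κ → ι × ι) (B : Finset (ι × ι)) (α : ι × ι → ℂ)
    (hB : Even (∑ e ∈ B, nu p e)) (hα : ∀ e, α e = 1 ∨ α e = -1) : OK p B (cb B α) := by
  have := hSQ κ (ix p B) (fun s => α (p s)) (by rwa [card_ix]) (fun s _ => hα _)
  simpa [OK, cb, ix] using this

theorem ok_add (hADD : St_ADD) (p : κ → ι × ι) {B B' : Finset (ι × ι)}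
    {c c' : ι × ι → ι × ι → ℂ} (h : OK p B c) (h' : OK p B' c') (hd : Disjoint B B') :
    OK p (B ∪ B') (c + c') := by
  have h2 := hADD κ _ _ _ _ h h' (by
    rw [Finset.disjoint_left] at hd ⊢
    intro s hs hs'
    simp only [ix, Finset.mem_filter, Finset.mem_univ, true_and] at hs hs'
    exact hd hs hs')
  have h3 : ix p (B ∪ B') = ix p B ∪ ix p B' := by
    ext s
    simp [ix]
  unfold OK
  rw [h3]
  exact h2

theorem inq_add {c c' : ι × ι → ι × ι → ℂ} (h : InQ c) (h' : InQ c') : InQ (c + c') := by
  intro a b i j hab hij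
  have h1 := h a b i j hab hij
  have h2 := h' a b i j hab hij
  simp only [Pi.add_apply]
  linear_combination h1 + h2

theorem inq_row (B : Finset (ι × ι)) (α : ι × ι → ℂ) (a : ι) (hB : ∀ e ∈ B, e.1 = a) :
    InQ (cb B α) := by
  intro x y i j hxy _
  have h1 : ¬ ((x, i) ∈ B ∧ (y, j) ∈ B) := fun h => hxy ((hB _ h.1).trans (hB _ h.2).symm)
  have h2 : ¬ ((y, i) ∈ B ∧ (x, j) ∈ B) := fun h => hxy ((hB _ h.2).trans (hB _ h.1).symm)
  simp [cb, h1, h2]

theorem inq_col (B : Finset (ι × ι)) (α : ι × ι → ℂ) (a : ι) (hB : ∀ e ∈ B, e.2 = a) :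
    InQ (cb B α) := by
  intro x y i j _ hij
  have h1 : ¬ ((x, i) ∈ B ∧ (y, j) ∈ B) := fun h => hij ((hB _ h.1).trans (hB _ h.2).symm)
  have h2 : ¬ ((y, i) ∈ B ∧ (x, j) ∈ B) := fun h => hij ((hB _ h.1).trans (hB _ h.2).symm)
  simp [cb, h1, h2]

theorem cross (a b i j : ι) (hab : a ≠ b) (x y k l : ι) (hxy : x ≠ y) :
    cb {(a, i), (b, j)} (fun _ => 1) (x, k) (y, l) +
      cb {(a, j), (b, i)} (fun e => if e.1 = a then 1 else -1) (y, k) (x, l) = 0 := by
  have hba := hab.symm
  have hyx := hxy.symm
  simp only [cb, Finset.mem_insert, Finset.mem_singleton, Prod.mk.injEq]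
  by_cases h1 : x = a
  · subst h1
    by_cases h2 : y = b
    · subst h2
      by_cases h3 : k = i <;> by_cases h4 : l = j <;> simp [h3, h4, hab, hba]
    · simp [h2, hyx]
  · by_cases h2 : x = b
    · subst h2
      by_cases h5 : y = a
      · subst h5
        by_cases h3 : k = j <;> by_cases h4 : l = i <;> simp [h3, h4, hab, hba]
      · simp [h5, hyx]
    · simp [h1, h2]

theorem inq_cross (a b i j : ι) (hab : a ≠ b) :
    InQ (cb {(a, i), (b, j)} (fun _ => 1) +
      cb {(a, j), (b, i)} (fun e => if e.1 = a then 1 else -1)) := by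
  intro x y k l hxy _
  have h1 := cross a b i j hab x y k l hxy
  have h2 := cross a b i j hab y x k l hxy.symm
  simp only [Pi.add_apply]
  linear_combination h1 + h2

theorem mem_rows (R : Finset ι) (e : ι × ι) : e ∈ rows R ↔ e.1 ∈ R := by simp [rows]

theorem odd_pos (p : κ → ι × ι) (a : ι) (h : ¬ Even (∑ e ∈ rows {a}, nu p e)) :
    ∃ i, ¬ Even (nu p (a, i)) := by
  by_contra h1
  push Not at h1
  apply h
  apply Finset.even_sum
  rintro ⟨x, i⟩ he
  rw [mem_rows, Finset.mem_singleton] at he
  obtain rfl : x = a := he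
  exact h1 i

theorem pair (hSQ : St_SQ) (hADD : St_ADD) (p : κ → ι × ι) (a b : ι) (hab : a ≠ b)
    (ha : ¬ Even (∑ e ∈ rows {a}, nu p e)) (hb : ¬ Even (∑ e ∈ rows {b}, nu p e)) :
    ∃ c, InQ c ∧ OK p (rows {a, b}) c := by
  have hba := hab.symm
  have one : ∀ e : ι × ι, (fun _ => (1 : ℂ)) e = 1 ∨ (fun _ => (1 : ℂ)) e = -1 :=
    fun _ => Or.inl rfl
  by_cases hc : ∃ i, ¬ Even (nu p (a, i)) ∧ ¬ Even (nu p (b, i))
  · obtain ⟨i, h1, h2⟩ := hc
    have ea := Finset.add_sum_erase (rows {a}) (nu p) (a := (a, i)) (by simp [mem_rows])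
    have eb := Finset.add_sum_erase (rows {b}) (nu p) (a := (b, i)) (by simp [mem_rows])
    rw [Nat.even_iff] at ha hb h1 h2
    have k1 := ok_block hSQ p {(a, i), (b, i)} _ (by
      rw [Finset.sum_pair (by simp [hab]), Nat.even_iff]; omega) one
    have k2 := ok_block hSQ p ((rows {a}).erase (a, i)) _ (by rw [Nat.even_iff]; omega) one
    have k3 := ok_block hSQ p ((rows {b}).erase (b, i)) _ (by rw [Nat.even_iff]; omega) one
    have k4 := ok_add hADD p k2 k3 (by
      rw [Finset.disjoint_left]
      intro e h h'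
      simp only [Finset.mem_erase, mem_rows, Finset.mem_singleton] at h h'
      exact hab (h.2.symm.trans h'.2))
    have k5 := ok_add hADD p k1 k4 (by
      rw [Finset.disjoint_left]
      intro e h h'
      simp only [Finset.mem_insert, Finset.mem_singleton] at h
      rcases h with rfl | rfl <;> simp [mem_rows, hab, hba] at h')
    have h9 : rows {a, b} = {(a, i), (b, i)} ∪
        ((rows {a}).erase (a, i) ∪ (rows {b}).erase (b, i)) := by
      ext ⟨x, k⟩
      simp only [mem_rows, Finset.mem_union, Finset.mem_insert, Finset.mem_singleton,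
        Finset.mem_erase, Prod.mk.injEq, ne_eq]
      tauto
    rw [← h9] at k5
    refine ⟨_, ?_, k5⟩
    refine inq_add (inq_col _ _ i ?_) (inq_add (inq_row _ _ a ?_) (inq_row _ _ b ?_))
    · intro e he
      simp only [Finset.mem_insert, Finset.mem_singleton] at he
      rcases he with rfl | rfl <;> rfl
    · intro e he
      simpa [mem_rows] using (Finset.mem_of_mem_erase he)
    · intro e he
      simpa [mem_rows] using (Finset.mem_of_mem_erase he)
  · obtain ⟨i, h1⟩ := odd_pos p a ha
    obtain ⟨j, h2⟩ := odd_pos p b hb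
    have h3 : Even (nu p (b, i)) := by
      by_contra h
      exact hc ⟨i, h1, h⟩
    have h4 : Even (nu p (a, j)) := by
      by_contra h
      exact hc ⟨j, h, h2⟩
    have hij : i ≠ j := by
      rintro rfl
      exact h1 h4
    have hji := hij.symm
    have ea := Finset.add_sum_erase (rows {a}) (nu p) (a := (a, i)) (by simp [mem_rows])
    have ea' := Finset.add_sum_erase ((rows {a}).erase (a, i)) (nu p) (a := (a, j))
      (by simp [mem_rows, hji])
    have eb := Finset.add_sum_erase (rows {b}) (nu p) (a := (b, j)) (by simp [mem_rows])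
    have eb' := Finset.add_sum_erase ((rows {b}).erase (b, j)) (nu p) (a := (b, i))
      (by simp [mem_rows, hij])
    rw [Nat.even_iff] at ha hb h1 h2 h3 h4
    have k0 := ok_block hSQ p {(a, i), (b, j)} _ (by
      rw [Finset.sum_pair (by simp [hab]), Nat.even_iff]; omega) one
    have k1 := ok_block hSQ p {(a, j), (b, i)} (fun e => if e.1 = a then 1 else -1) (by
      rw [Finset.sum_pair (by simp [hab]), Nat.even_iff]; omega) (by
        intro e
        by_cases h : e.1 = a <;> simp [h])
    have k2 := ok_block hSQ p (((rows {a}).erase (a, i)).erase (a, j)) _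
      (by rw [Nat.even_iff]; omega) one
    have k3 := ok_block hSQ p (((rows {b}).erase (b, j)).erase (b, i)) _
      (by rw [Nat.even_iff]; omega) one
    have k4 := ok_add hADD p k2 k3 (by
      rw [Finset.disjoint_left]
      intro e h h'
      simp only [Finset.mem_erase, mem_rows, Finset.mem_singleton] at h h'
      exact hab (h.2.2.symm.trans h'.2.2))
    have k5 := ok_add hADD p k0 k1 (by
      rw [Finset.disjoint_left]
      intro e h h'
      simp only [Finset.mem_insert, Finset.mem_singleton] at h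
      rcases h with rfl | rfl <;> simp [hab, hba, hij, hji] at h')
    have k6 := ok_add hADD p k5 k4 (by
      rw [Finset.disjoint_left]
      intro e h h'
      simp only [Finset.mem_union, Finset.mem_insert, Finset.mem_singleton] at h
      rcases h with (rfl | rfl) | (rfl | rfl) <;> simp [mem_rows, hab, hba] at h')
    have h9 : rows {a, b} = ({(a, i), (b, j)} ∪ {(a, j), (b, i)}) ∪
        (((rows {a}).erase (a, i)).erase (a, j) ∪ ((rows {b}).erase (b, j)).erase (b, i)) := by
      ext ⟨x, k⟩
      simp only [mem_rows, Finset.mem_union, Finset.mem_insert, Finset.mem_singleton,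
        Finset.mem_erase, Prod.mk.injEq, ne_eq]
      tauto
    rw [← h9] at k6
    refine ⟨_, ?_, k6⟩
    refine inq_add (inq_cross a b i j hab) (inq_add (inq_row _ _ a ?_) (inq_row _ _ b ?_))
    · intro e he
      simpa [mem_rows] using (Finset.mem_of_mem_erase (Finset.mem_of_mem_erase he))
    · intro e he
      simpa [mem_rows] using (Finset.mem_of_mem_erase (Finset.mem_of_mem_erase he))

theorem rows_union (R R' : Finset ι) : rows (R ∪ R') = rows R ∪ rows R' := by
  ext e
  simp [mem_rows]

theorem rows_disj {R R' : Finset ι} (h : Disjoint R R') : Disjoint (rows R) (rows R') := by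
  rw [Finset.disjoint_left] at h ⊢
  intro e h1 h2
  rw [mem_rows] at h1 h2
  exact h h1 h2

theorem sum_rows (p : κ → ι × ι) (R : Finset ι) :
    ∑ e ∈ rows R, nu p e = ∑ a ∈ R, ∑ e ∈ rows {a}, nu p e := by
  induction R using Finset.induction_on with
  | empty => simp [rows]
  | insert a R ha ih =>
    rw [Finset.sum_insert ha, Finset.insert_eq, rows_union,
      Finset.sum_union (rows_disj (by simpa using ha)), ih]

theorem all (hSQ : St_SQ) (hADD : St_ADD) (p : κ → ι × ι) (R : Finset ι) :
    Even (∑ a ∈ R, ∑ e ∈ rows {a}, nu p e) → ∃ c, InQ c ∧ OK p (rows R) c := by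
  induction R using Finset.strongInduction with
  | H R ih =>
    intro hR
    have one : ∀ e : ι × ι, (fun _ => (1 : ℂ)) e = 1 ∨ (fun _ => (1 : ℂ)) e = -1 :=
      fun _ => Or.inl rfl
    rcases R.eq_empty_or_nonempty with rfl | ⟨a, ha⟩
    · refine ⟨_, ?_, ok_block hSQ p (rows ∅) _ (by simp [rows]) one⟩
      intro x y i j _ _
      simp [cb, rows]
    have ea := Finset.add_sum_erase R (fun a => ∑ e ∈ rows {a}, nu p e) ha
    by_cases h1 : Even (∑ e ∈ rows {a}, nu p e)
    · obtain ⟨c, hc, hk⟩ := ih (R.erase a) (Finset.erase_ssubset ha) (by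
        rw [Nat.even_iff] at hR h1 ⊢; omega)
      refine ⟨_, inq_add (inq_row (rows {a}) (fun _ => 1) a (by simp [mem_rows])) hc, ?_⟩
      have := ok_add hADD p (ok_block hSQ p (rows {a}) _ h1 one) hk (rows_disj (by simp))
      rwa [← rows_union, ← Finset.insert_eq, Finset.insert_erase ha] at this
    · have h2 : ∃ b ∈ R.erase a, ¬ Even (∑ e ∈ rows {b}, nu p e) := by
        by_contra h
        push Not at h
        have := Finset.even_sum (s := R.erase a) (fun a => ∑ e ∈ rows {a}, nu p e) h
        rw [Nat.even_iff] at hR h1 this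
        omega
      obtain ⟨b, hb, h2⟩ := h2
      have eb := Finset.add_sum_erase (R.erase a) (fun a => ∑ e ∈ rows {a}, nu p e) hb
      obtain ⟨c, hc, hk⟩ := ih ((R.erase a).erase b)
        (lt_of_le_of_lt (Finset.erase_subset _ _) (Finset.erase_ssubset ha)) (by
        rw [Nat.even_iff] at hR h1 h2 ⊢; omega)
      obtain ⟨c', hc', hk'⟩ := pair hSQ hADD p a b (Finset.ne_of_mem_erase hb).symm h1 h2
      refine ⟨_, inq_add hc' hc, ?_⟩
      have := ok_add hADD p hk' hk (rows_disj (by
        rw [Finset.disjoint_left]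
        intro x hx hx'
        simp only [Finset.mem_insert, Finset.mem_singleton, Finset.mem_erase] at hx hx'
        tauto))
      have h3 : ({a, b} : Finset ι) ∪ (R.erase a).erase b = R := by
        ext x
        have := Finset.mem_of_mem_erase hb
        simp only [Finset.mem_union, Finset.mem_insert, Finset.mem_singleton, Finset.mem_erase]
        constructor
        · rintro ((rfl | rfl) | h)
          · exact ha
          · exact this
          · exact h.2.2
        · intro hx
          tauto
      rwa [← rows_union, h3] at this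

end BLK

theorem st_BLK (hSQ : St_SQ) (hADD : St_ADD) : St_BLK := by
  intro κ ι _ _ _ _ p hκ
  have h1 : BLK.ix p (BLK.rows Finset.univ) = Finset.univ := by
    ext s
    simp [BLK.ix, BLK.rows]
  obtain ⟨c, hc, hk⟩ := BLK.all hSQ hADD p Finset.univ (by
    rw [← BLK.sum_rows, ← BLK.card_ix, h1]
    exact hκ)
  refine ⟨c, hc, ?_⟩
  unfold BLK.OK at hk
  rwa [h1] at hk

end Pool.Agent.Lib.CH48
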