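import Pool.Agent.Lib.CH48.B_KIT

namespace Pool.Agent.Lib.CH48

open Matrix

namespace CNT

theorem ker_add {I J : Type} [Fintype I] [Fintype J] (B : Matrix I J ℂ)
    (h : ∀ w, Bᵀ *ᵥ w = 0 → w = 0) :
    Module.finrank ℂ (LinearMap.ker B.mulVecLin) + Fintype.card I = Fintype.card J := by
  classical
  have h1 : Bᵀ.rank = Fintype.card I := by
    rw [Matrix.rank, LinearMap.finrank_range_of_inj ((injective_iff_map_eq_zero _).2 h),
      Module.finrank_fintype_fun_eq_card]
  have h2 := LinearMap.finrank_range_add_finrank_ker B.mulVecLin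
  rw [Matrix.rank_transpose, Matrix.rank] at h1
  rw [h1, Module.finrank_fintype_fun_eq_card] at h2
  omega

theorem sum_sub {α : Type} [Fintype α] (p : α → Prop) [DecidablePred p] (f : α → ℂ)
    (h : ∀ x, ¬p x → f x = 0) : ∑ x, f x = ∑ x : {x // p x}, f x := by
  rw [← Fintype.sum_subtype_add_sum_subtype p f,
    Finset.sum_eq_zero (s := (Finset.univ : Finset {x // ¬p x})) fun x _ => h x x.2, add_zero]

end CNT

theorem st_CNT : St_CNT := by
  intro κ _ _ m hn hg
  obtain ⟨-, -, -, k4, k5, -⟩ := st_KIT κ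
  obtain ⟨n, en⟩ : ∃ n, n = Fintype.card κ := ⟨_, rfl⟩
  obtain ⟨ε, eε⟩ : ∃ ε, ε = (n / 2 + 1) % 2 := ⟨_, rfl⟩
  unfold Good at hg
  rw [← en] at hn hg ⊢
  rw [← eε]
  let P : Finset κ → Prop := fun T => T.card % 2 = ε ∧ 2 * T.card < n + 2
  let Q : Finset κ → Prop := fun T => T.card % 2 = ε ∧ 2 * (T.card + 2) < n + 2
  let B : Matrix {S // Q S} {T // P T} ℂ := (E m).submatrix Subtype.val Subtype.val
  have hB : ∀ w, Bᵀ *ᵥ w = 0 → w = 0 := by
    intro w hw
    let u : Finset κ → ℂ := fun S => if h : Q S then w ⟨S, h⟩ else 0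
    have hu : (fun S : Finset κ => u Sᶜ) = 0 := by
      refine hg _ (fun S hS => ?_) (funext fun T => ?_)
      · have h1 : Q Sᶜ := by
          by_contra h
          exact hS (dif_neg h)
        have h2 := h1.2
        have h3 := Finset.card_add_card_compl S
        omega
      · have e1 : (E m *ᵥ fun S : Finset κ => u Sᶜ) T = ∑ S, E m S Tᶜ * u S := by
          refine Fintype.sum_equiv (Function.Involutive.toPerm (·ᶜ) compl_compl) _ _ fun S => ?_
          exact congrArg (· * u Sᶜ) (k5 m T S)
        rw [e1, CNT.sum_sub Q _ fun S h => by rw [show u S = 0 from dif_neg h, mul_zero]]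
        by_cases hT : P Tᶜ
        · refine Eq.trans (Finset.sum_congr rfl fun S _ => ?_) (congrFun hw ⟨Tᶜ, hT⟩)
          rw [show u S = w S from dif_pos S.2]
          rfl
        · refine Finset.sum_eq_zero fun S _ => mul_eq_zero_of_left ?_ _
          by_contra h
          have h1 := k4 m _ _ h
          obtain ⟨h2, h3⟩ := S.2
          exact hT ⟨by omega, by omega⟩
    funext S
    have h1 : u S.1ᶜᶜ = 0 := congrFun hu S.1ᶜ
    rw [compl_compl] at h1
    exact (show u S = w S from dif_pos S.2).symm.trans h1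
  have supp : ∀ v ∈ LinearMap.ker (Matrix.mulVecLin (E m)) ⊓ Vpar κ ε, ∀ S, ¬P S → v S = 0 := by
    rintro v ⟨h1, h2⟩ S hS
    have h1 : E m *ᵥ v = 0 := h1
    by_cases c : S.card % 2 = ε
    swap
    · exact h2 S c
    have h3 : (fun T : Finset κ => if n + 2 ≤ 2 * T.card then v T else 0) = 0 := by
      refine hg _ (fun T hT => by_contra fun h => hT (if_neg h)) (funext fun T => ?_)
      by_cases c2 : n + 2 ≤ 2 * (T.card + 2)
      · refine Eq.trans (Finset.sum_congr rfl fun U _ => ?_) (congrFun h1 T)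
        by_cases z : E m T U = 0
        · simp [z]
        · simp only [k4 m _ _ z, if_pos c2]
      · refine Finset.sum_eq_zero fun U _ => ?_
        by_cases z : E m T U = 0
        · simp [z]
        · simp only [k4 m _ _ z, if_neg c2, mul_zero]
    have h4 : n + 2 ≤ 2 * S.card := not_lt.1 fun h => hS ⟨c, h⟩
    simpa [h4] using congrFun h3 S
  let φ : ↥(LinearMap.ker (Matrix.mulVecLin (E m)) ⊓ Vpar κ ε) →ₗ[ℂ] LinearMap.ker B.mulVecLin :=
    LinearMap.codRestrict _ (LinearMap.funLeft ℂ ℂ Subtype.val ∘ₗ Submodule.subtype _) fun v => by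
      funext S
      refine Eq.trans ?_ (congrFun (show E m *ᵥ v.1 = 0 from v.2.1) S.1)
      exact (CNT.sum_sub P (fun T => E m S.1 T * v.1 T) fun T h => by
        rw [supp _ v.2 T h, mul_zero]).symm
  have inj : Function.Injective φ := (injective_iff_map_eq_zero _).2 fun v h => by
    refine Subtype.ext (funext fun S => ?_)
    by_cases c : P S
    · exact congrFun (congrArg Subtype.val h) ⟨S, c⟩
    · exact supp _ v.2 S c
  have a1 := LinearMap.finrank_le_finrank_of_injective inj
  have a2 := CNT.ker_add B hB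
  obtain ⟨t, t1, t2⟩ : ∃ t, n.choose t = n.choose (n / 2 + 1) ∧
      ∀ c, c % 2 = ε → 2 * c < n + 2 → ¬2 * (c + 2) < n + 2 → c = t := by
    by_cases c : n % 2 = 0
    · exact ⟨n / 2 - 1, Nat.choose_symm_of_eq_add (by omega), fun c a b d => by omega⟩
    · exact ⟨n / 2 + 1, rfl, fun c a b d => by omega⟩
  have a3 : Fintype.card {T // P T} ≤ Fintype.card {S // Q S} + n.choose t := by
    rw [Fintype.card_subtype, Fintype.card_subtype, show n.choose t =
      (Finset.powersetCard t (Finset.univ : Finset κ)).card by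
        rw [Finset.card_powersetCard, Finset.card_univ, ← en]]
    refine (Finset.card_le_card fun S hS => ?_).trans (Finset.card_union_le _ _)
    have h1 := (Finset.mem_filter.1 hS).2
    by_cases c : 2 * (S.card + 2) < n + 2
    · exact Finset.mem_union_left _ (Finset.mem_filter.2 ⟨Finset.mem_univ _, h1.1, c⟩)
    · exact Finset.mem_union_right _
        (Finset.mem_powersetCard.2 ⟨Finset.subset_univ _, t2 _ h1.1 h1.2 c⟩)
  omega

end Pool.Agent.Lib.CH48
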