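import Pool.Agent.Lib.CH48.B_KIT

namespace Pool.Agent.Lib.CH48

open Matrix

namespace COM

theorem fin_line (hFIN : St_FIN) {κ ι : Type} [Fintype κ] [DecidableEq κ] [Fintype ι]
    (c₀ c₁ : ι × ι → ι × ι → ℂ) (L : κ → ι × ι → ℂ) (x₀ : ℂ)
    (h : Good (mm (fun e f => c₀ e f + x₀ * (c₁ e f - c₀ e f)) L)) :
    {x : ℂ | ¬ Good (mm (fun e f => c₀ e f + x * (c₁ e f - c₀ e f)) L)}.Finite := by
  have key : ∀ x : ℂ, (fun s t => (Polynomial.C (mm c₀ L s t) +
      Polynomial.X * Polynomial.C (mm c₁ L s t - mm c₀ L s t)).eval x) =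
      mm (fun e f => c₀ e f + x * (c₁ e f - c₀ e f)) L := by
    intro x
    funext s t
    simp only [Polynomial.eval_add, Polynomial.eval_mul, Polynomial.eval_C, Polynomial.eval_X, mm,
      ← Finset.sum_sub_distrib, Finset.mul_sum, ← Finset.sum_add_distrib]
    refine Finset.sum_congr rfl fun e _ => Finset.sum_congr rfl fun f _ => ?_
    ring
  have h1 := hFIN κ (fun s t => Polynomial.C (mm c₀ L s t) +
    Polynomial.X * Polynomial.C (mm c₁ L s t - mm c₀ L s t)) x₀ (by rw [key]; exact h)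
  simpa only [key] using h1

end COM

theorem st_COM (hFIN : St_FIN) (hTOR : St_TOR) : St_COM := by
  classical
  intro κ K _ _ _ n L hL _
  have main : ∀ F : Finset K, ∃ c, InQ c ∧ ∀ k ∈ F, Good (mm c (L k)) := by
    intro F
    induction F using Finset.induction_on with
    | empty => exact ⟨0, fun _ _ _ _ _ _ => by simp, fun k hk => absurd hk (by simp)⟩
    | insert k₀ F _ ih =>
      obtain ⟨c₀, q₀, g₀⟩ := ih
      obtain ⟨c₁, q₁, g₁⟩ := hTOR κ n (L k₀) (hL k₀)
      have hfin : (⋃ k ∈ insert k₀ F, {x : ℂ |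
          ¬ Good (mm (fun e f => c₀ e f + x * (c₁ e f - c₀ e f)) (L k))}).Finite := by
        refine Set.Finite.biUnion (Finset.finite_toSet _) fun k hk => ?_
        rcases Finset.mem_insert.1 hk with rfl | hk
        · exact COM.fin_line hFIN c₀ c₁ _ 1 (by simpa using g₁)
        · exact COM.fin_line hFIN c₀ c₁ _ 0 (by simpa using g₀ k hk)
      obtain ⟨x, hx⟩ := hfin.exists_notMem
      refine ⟨fun e f => c₀ e f + x * (c₁ e f - c₀ e f), fun a b i j hab hij => ?_,
        fun k hk => ?_⟩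
      · linear_combination (1 - x) * q₀ a b i j hab hij + x * q₁ a b i j hab hij
      · by_contra hb
        exact hx (Set.mem_biUnion hk hb)
  obtain ⟨c, hc, hg⟩ := main Finset.univ
  exact ⟨c, hc, fun k => hg k (Finset.mem_univ k)⟩

end Pool.Agent.Lib.CH48
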