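import Pool.Agent.Lib.CH48.B_KIT

namespace Pool.Agent.Lib.CH48

open Matrix

namespace DUAL

variable {N : Type} [Fintype N] [DecidableEq N]

/-- The commutant of a set of matrices. -/
def Cm (G : Set (Matrix N N ℂ)) : Submodule ℂ (Matrix N N ℂ) where
  carrier := {x | ∀ g ∈ G, Commute x g}
  add_mem' := fun ha hb g hg => (ha g hg).add_left (hb g hg)
  zero_mem' := fun g _ => Commute.zero_left g
  smul_mem' := fun c _ ha g hg => (ha g hg).smul_left c

theorem ct_mem {G : Set (Matrix N N ℂ)} (hG : ∀ g ∈ G, gᴴ ∈ G) {x : Matrix N N ℂ}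
    (hx : x ∈ Cm G) : xᴴ ∈ Cm G := by
  intro g hg
  have h : x * gᴴ = gᴴ * x := hx gᴴ (hG g hg)
  have h2 := congrArg conjTranspose h
  simp only [conjTranspose_mul, conjTranspose_conjTranspose] at h2
  exact h2.symm

/-- The trace form on the commutant. -/
noncomputable def tf (G : Set (Matrix N N ℂ)) : LinearMap.BilinForm ℂ (Cm G) :=
  LinearMap.mk₂ ℂ (fun x y => trace (x.1 * y.1))
    (fun a b c => by simp [add_mul])
    (fun c a b => by simp)
    (fun a b c => by simp [mul_add])
    (fun c a b => by simp)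

theorem tf_apply (G : Set (Matrix N N ℂ)) (x y : Cm G) : tf G x y = trace (x.1 * y.1) := rfl

open scoped ComplexOrder in
theorem sep {G : Set (Matrix N N ℂ)} (hG : ∀ g ∈ G, gᴴ ∈ G) (x : Cm G)
    (h : ∀ y : Cm G, trace (x.1 * y.1) = 0) : x = 0 :=
  Subtype.ext (trace_mul_conjTranspose_self_eq_zero_iff.1 (h ⟨x.1ᴴ, ct_mem hG x.2⟩))

/-- The commutator with `e` on the commutant. -/
noncomputable def ad {G : Set (Matrix N N ℂ)} {e : Matrix N N ℂ} (he : e ∈ Cm G) :
    Cm G →ₗ[ℂ] Cm G where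
  toFun x := ⟨e * x.1 - x.1 * e, fun g hg =>
    ((he g hg).mul_left (x.2 g hg)).sub_left ((x.2 g hg).mul_left (he g hg))⟩
  map_add' a b := Subtype.ext (by
    simp only [Submodule.coe_add, mul_add, add_mul]
    abel)
  map_smul' c a := Subtype.ext (by simp [smul_sub])

theorem ad_val {G : Set (Matrix N N ℂ)} {e : Matrix N N ℂ} (he : e ∈ Cm G) (x : Cm G) :
    (ad he x).1 = e * x.1 - x.1 * e := rfl

end DUAL

theorem st_DUAL : St_DUAL := by
  intro N _ _ e H G hG he hH htr
  have he' : e ∈ DUAL.Cm G := he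
  have hH' : H ∈ DUAL.Cm G := hH
  have hnd : (DUAL.tf G).Nondegenerate :=
    ⟨fun x hx => DUAL.sep hG x hx, fun y hy => DUAL.sep hG y fun x => by
      rw [trace_mul_comm]
      exact hy x⟩
  have hrf : (DUAL.tf G).IsRefl := fun x y h => by
    rw [DUAL.tf_apply, trace_mul_comm]
    exact h
  have key : (⟨H, hH'⟩ : DUAL.Cm G) ∈ LinearMap.range (DUAL.ad he') := by
    rw [← LinearMap.BilinForm.orthogonal_orthogonal hnd hrf (LinearMap.range (DUAL.ad he')),
      LinearMap.BilinForm.mem_orthogonal_iff]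
    intro z hz
    rw [LinearMap.BilinForm.mem_orthogonal_iff] at hz
    have h0 : DUAL.ad he' z = 0 := DUAL.sep hG _ fun y => by
      have h1 := hz _ (LinearMap.mem_range_self _ y)
      rw [DUAL.tf_apply, DUAL.ad_val, sub_mul, trace_sub] at h1
      rw [DUAL.ad_val, sub_mul, trace_sub]
      have h2 : trace (e * z.1 * y.1) = trace (y.1 * e * z.1) := by
        rw [trace_mul_comm, mul_assoc]
      have h3 : trace (z.1 * e * y.1) = trace (e * y.1 * z.1) := by
        rw [mul_assoc, trace_mul_comm]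
      rw [h2, h3]
      linear_combination -h1
    have h4 : e * z.1 - z.1 * e = 0 := congrArg Subtype.val h0
    rw [DUAL.tf_apply, trace_mul_comm]
    exact htr z.1 (sub_eq_zero.1 h4).symm
  obtain ⟨f, hf⟩ := key
  exact ⟨f.1, f.2, congrArg Subtype.val hf⟩

end Pool.Agent.Lib.CH48
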