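import Pool.Agent.Lib.CH48.B_KIT

namespace Pool.Agent.Lib.CH48

open Matrix

namespace FIN

theorem gen {α β : Type} [Fintype α] [Fintype β] [DecidableEq α] [DecidableEq β]
    (P : Matrix α β (Polynomial ℂ)) (x₀ : ℂ)
    (h : ∀ v, P.map (Polynomial.eval x₀) *ᵥ v = 0 → v = 0) :
    {x : ℂ | ¬ ∀ v, P.map (Polynomial.eval x) *ᵥ v = 0 → v = 0}.Finite := by
  obtain ⟨g, hg⟩ := (Matrix.toLin' (P.map (Polynomial.eval x₀))).exists_leftInverse_of_injective
    (LinearMap.ker_eq_bot'.2 fun v hv => h v (by simpa using hv))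
  have hL : LinearMap.toMatrix' g * P.map (Polynomial.eval x₀) = 1 := by
    have h1 := congrArg LinearMap.toMatrix' hg
    rwa [LinearMap.toMatrix'_comp, LinearMap.toMatrix'_toLin', LinearMap.toMatrix'_id] at h1
  generalize LinearMap.toMatrix' g = L at hL
  have hD : ∀ x : ℂ, (L.map Polynomial.C * P).det.eval x =
      (L * P.map (Polynomial.eval x)).det := by
    intro x
    have h1 := RingHom.map_det (Polynomial.evalRingHom x) (L.map Polynomial.C * P)
    rw [Polynomial.coe_evalRingHom] at h1
    rw [h1]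
    congr 1
    ext i j
    simp [Matrix.mul_apply, Polynomial.eval_finsetSum]
  have h0 : (L.map Polynomial.C * P).det ≠ 0 := by
    intro h1
    have h2 := hD x₀
    rw [h1, hL] at h2
    simp at h2
  refine (Polynomial.finite_setOfPred_isRoot h0).subset fun x hx => ?_
  simp only [Set.mem_ofPred_eq, not_forall] at hx
  obtain ⟨v, h1, h2⟩ := hx
  change (L.map Polynomial.C * P).det.eval x = 0
  rw [hD]
  exact Matrix.exists_mulVec_eq_zero_iff.1 ⟨v, h2, by rw [← Matrix.mulVec_mulVec, h1]; simp⟩

/-- The operator stacked over the projection to the small sets. -/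
noncomputable def stack {κ : Type} [Fintype κ] [DecidableEq κ] (m : κ → κ → Polynomial ℂ) :
    Matrix (Finset κ ⊕ Finset κ) (Finset κ) (Polynomial ℂ) :=
  Matrix.of (Sum.elim
    (fun S T => ∑ s, ∑ t, m s t *
      if s ∉ S ∧ t ∉ S ∧ s ≠ t ∧ T = insert t (insert s S) then 1 else 0)
    (fun S T => if S = T ∧ ¬ Fintype.card κ + 2 ≤ 2 * S.card then 1 else 0))

theorem stack_inl {κ : Type} [Fintype κ] [DecidableEq κ] (m : κ → κ → Polynomial ℂ) (x : ℂ)
    (v : Finset κ → ℂ) (S : Finset κ) :
    ((stack m).map (Polynomial.eval x) *ᵥ v) (Sum.inl S) =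
      (E (fun s t => (m s t).eval x) *ᵥ v) S := by
  change ∑ T, ((stack m).map (Polynomial.eval x)) (Sum.inl S) T * v T =
    ∑ T, E (fun s t => (m s t).eval x) S T * v T
  refine Finset.sum_congr rfl fun T _ => ?_
  congr 1
  rw [KIT.e_apply]
  simp only [stack, Matrix.map_apply, Matrix.of_apply, Sum.elim_inl, Polynomial.eval_finsetSum,
    Polynomial.eval_mul]
  refine Finset.sum_congr rfl fun s _ => Finset.sum_congr rfl fun t _ => ?_
  split_ifs <;> simp

theorem stack_inr {κ : Type} [Fintype κ] [DecidableEq κ] (m : κ → κ → Polynomial ℂ) (x : ℂ)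
    (v : Finset κ → ℂ) (S : Finset κ) :
    ((stack m).map (Polynomial.eval x) *ᵥ v) (Sum.inr S) =
      if Fintype.card κ + 2 ≤ 2 * S.card then 0 else v S := by
  change ∑ T, ((stack m).map (Polynomial.eval x)) (Sum.inr S) T * v T = _
  rw [Finset.sum_eq_single S]
  · simp only [stack, Matrix.map_apply, Matrix.of_apply, Sum.elim_inr, true_and]
    by_cases h : Fintype.card κ + 2 ≤ 2 * S.card
    · rw [if_neg (not_not.2 h), if_pos h]
      simp
    · rw [if_pos h, if_neg h]
      simp
  · intro T _ hT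
    simp [stack, hT.symm]
  · simp

theorem good_iff {κ : Type} [Fintype κ] [DecidableEq κ] (m : κ → κ → Polynomial ℂ) (x : ℂ) :
    Good (fun s t => (m s t).eval x) ↔
      ∀ v, (stack m).map (Polynomial.eval x) *ᵥ v = 0 → v = 0 := by
  constructor
  · intro h v hv
    refine h v (fun S hS => ?_) ?_
    · by_contra h1
      have h2 := congrFun hv (Sum.inr S)
      rw [stack_inr, if_neg h1] at h2
      exact hS h2
    · funext S
      rw [← stack_inl]
      exact congrFun hv (Sum.inl S)
  · intro h v h1 h2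
    refine h v ?_
    funext i
    rcases i with S | S
    · rw [stack_inl, h2]
      rfl
    · rw [stack_inr]
      split_ifs with h3
      · rfl
      · by_contra h4
        exact h3 (h1 S h4)

end FIN

theorem st_FIN : St_FIN := by
  intro κ _ _ m x₀ h
  simp only [FIN.good_iff] at h ⊢
  exact FIN.gen _ x₀ h

end Pool.Agent.Lib.CH48
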