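import Pool.Agent.Lib.CH48.B_KIT

namespace Pool.Agent.Lib.CH48

open Matrix
open scoped ComplexOrder

namespace HL

variable {N : Type} [Fintype N] [DecidableEq N]

omit [DecidableEq N] in
theorem wt_mul {M : Matrix N N ℂ} {h : N → ℤ} {d w : ℤ} {v : N → ℂ}
    (hM : ∀ x y, M x y ≠ 0 → h x = h y + d) (hv : ∀ x, v x ≠ 0 → h x = w) :
    ∀ x, (M *ᵥ v) x ≠ 0 → h x = w + d := by
  intro x hx
  obtain ⟨y, -, hy⟩ := Finset.exists_ne_zero_of_sum_ne_zero (s := Finset.univ)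
    (f := fun y => M x y * v y) hx
  rw [hM x y (left_ne_zero_of_mul hy), hv y (right_ne_zero_of_mul hy)]

omit [Fintype N] [DecidableEq N] in
theorem down {U : Matrix N N ℂ} {h : N → ℤ} (hU : ∀ x y, U x y ≠ 0 → h x = h y + 1) :
    ∀ x y, Uᴴ x y ≠ 0 → h x = h y + -1 := by
  intro x y hxy
  have : U y x ≠ 0 := fun e => hxy (by simp [e])
  have := hU y x this
  omega

theorem one {U : Matrix N N ℂ} {h : N → ℤ} {w : ℤ} {v : N → ℂ}
    (hH : U * Uᴴ - Uᴴ * U = diagonal (fun x => (2 * h x : ℂ))) (hv : ∀ x, v x ≠ 0 → h x = w) :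
    U *ᵥ (Uᴴ *ᵥ v) = Uᴴ *ᵥ (U *ᵥ v) + (2 * w : ℂ) • v := by
  have h1 := congrArg (fun M => M *ᵥ v) hH
  simp only [sub_mulVec, ← mulVec_mulVec] at h1
  rw [sub_eq_iff_eq_add'] at h1
  rw [h1]
  congr 1
  ext x
  rw [mulVec_diagonal]
  by_cases hx : v x = 0
  · simp [hx]
  · simp [hv x hx]

theorem comm {U : Matrix N N ℂ} {h : N → ℤ}
    (hH : U * Uᴴ - Uᴴ * U = diagonal (fun x => (2 * h x : ℂ)))
    (hU : ∀ x y, U x y ≠ 0 → h x = h y + 1) (m : ℕ) : ∀ (w : ℤ) (v : N → ℂ),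
    (∀ x, v x ≠ 0 → h x = w) → U ^ (m + 1) *ᵥ (Uᴴ *ᵥ v) =
      Uᴴ *ᵥ (U ^ (m + 1) *ᵥ v) + (((m : ℂ) + 1) * (2 * w + m)) • U ^ m *ᵥ v := by
  induction m with
  | zero =>
    intro w v hv
    simpa using one hH hv
  | succ m ih =>
    intro w v hv
    have h1 := ih (w + 1) (U *ᵥ v) (wt_mul hU hv)
    have e1 : ∀ (k : ℕ) (u : N → ℂ), U ^ (k + 1) *ᵥ u = U ^ k *ᵥ (U *ᵥ u) := fun k u => by
      rw [pow_succ, mulVec_mulVec]
    rw [e1 (m + 1) (Uᴴ *ᵥ v), one hH hv, mulVec_add, mulVec_smul, h1, ← e1, ← e1, add_assoc,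
      ← add_smul]
    congr 2
    push_cast
    ring

theorem main {U : Matrix N N ℂ} {h : N → ℤ}
    (hH : U * Uᴴ - Uᴴ * U = diagonal (fun x => (2 * h x : ℂ)))
    (hU : ∀ x y, U x y ≠ 0 → h x = h y + 1) (w : ℤ) (m : ℕ) : ∀ v : N → ℂ, (m : ℤ) + 2 * w ≤ 0 →
    (∀ x, v x ≠ 0 → h x = w) → U ^ m *ᵥ v = 0 → v = 0 := by
  induction m with
  | zero =>
    intro v _ _ h0
    simpa using h0
  | succ m ih =>
    intro v hm hv h0
    have h1 := comm hH hU m w v hv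
    rw [h0, mulVec_zero, zero_add, pow_succ, ← mulVec_mulVec] at h1
    obtain ⟨c, hc⟩ : ∃ c : ℝ, c = ((m : ℝ) + 1) * (-(2 * w + m)) := ⟨_, rfl⟩
    have c0 : 0 < c := by
      have : (2 * w + m : ℝ) ≤ -1 := by
        have : (2 * w + m : ℤ) ≤ -1 := by push_cast at hm; omega
        exact_mod_cast this
      rw [hc]
      exact mul_pos (by positivity) (by linarith)
    have h2 : U *ᵥ (Uᴴ *ᵥ v) + (c : ℂ) • v = 0 := by
      refine ih _ (by push_cast at hm; omega) (fun x hx => ?_) ?_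
      · by_cases h3 : v x = 0
        · have := wt_mul hU (wt_mul (down hU) hv) x (by simpa [h3] using hx)
          omega
        · exact hv x h3
      · rw [mulVec_add, h1, mulVec_smul, ← add_smul, hc]
        push_cast
        rw [mul_neg, add_neg_cancel, zero_smul]
    have h3 : (U * Uᴴ + (c : ℂ) • (1 : Matrix N N ℂ)).PosDef :=
      PosDef.posSemidef_add (posSemidef_self_mul_conjTranspose U)
        (PosDef.one.smul (by exact_mod_cast c0))
    apply mulVec_injective_iff_isUnit.2 h3.isUnit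
    rw [add_mulVec, ← mulVec_mulVec, smul_mulVec, one_mulVec, h2, mulVec_zero]

end HL

theorem st_HL : St_HL := by
  intro N _ _ U h hH hU j v hv h0
  exact HL.main hH hU (-(j : ℤ)) (2 * j) v (by push_cast; omega) hv h0

end Pool.Agent.Lib.CH48
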