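import Pool.Agent.Lib.CH48.B_KIT

namespace Pool.Agent.Lib.CH48

open Matrix

namespace JAC

theorem comm_pow {N : Type} [Fintype N] [DecidableEq N] {e f h : Matrix N N ℂ}
    (h1 : e * f - f * e = h) (h2 : e * h = h * e - (2 : ℂ) • e) (k : ℕ) :
    e ^ (k + 1) * f - f * e ^ (k + 1) = ((k : ℂ) + 1) • (h * e ^ k - (k : ℂ) • e ^ k) := by
  induction k with
  | zero => simp [h1]
  | succ k ih =>
    have h3 : e ^ (k + 1 + 1) * f - f * e ^ (k + 1 + 1) =
        e * (e ^ (k + 1) * f - f * e ^ (k + 1)) + (e * f - f * e) * e ^ (k + 1) := by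
      rw [pow_succ' e (k + 1)]
      noncomm_ring
    have h4 : e * (h * e ^ k) = h * e ^ (k + 1) - (2 : ℂ) • e ^ (k + 1) := by
      rw [← mul_assoc, h2, sub_mul, smul_mul_assoc, mul_assoc, ← pow_succ']
    rw [h3, ih, h1, mul_smul_comm, mul_sub, h4, mul_smul_comm, ← pow_succ']
    push_cast
    module

theorem mem_range {N : Type} [Fintype N] [DecidableEq N] {e f h : Matrix N N ℂ}
    (h1 : e * f - f * e = h) (h2 : e * h = h * e - (2 : ℂ) • e) {u : N → ℂ} {l : ℂ}
    (hu : e *ᵥ u = 0) (hl : h *ᵥ u = l • u) (hk : ∀ k : ℕ, l - k ≠ 0) (k : ℕ) :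
    ∃ w, u = e ^ k *ᵥ w := by
  induction k with
  | zero => exact ⟨u, by simp⟩
  | succ k ih =>
    obtain ⟨w, hw⟩ := ih
    have h3 : e ^ (k + 1) *ᵥ w = 0 := by
      rw [pow_succ', ← mulVec_mulVec, ← hw, hu]
    have h4 := congrArg (· *ᵥ w) (comm_pow h1 h2 k)
    simp only [sub_mulVec, smul_mulVec, ← mulVec_mulVec, h3, mulVec_zero, sub_zero, ← hw,
      hl] at h4
    have h5 : ((k : ℂ) + 1) * (l - k) ≠ 0 :=
      mul_ne_zero (by exact_mod_cast Nat.succ_ne_zero k) (hk k)
    refine ⟨(((k : ℂ) + 1) * (l - k))⁻¹ • f *ᵥ w, ?_⟩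
    rw [mulVec_smul, h4, ← sub_smul, smul_smul, smul_smul, mul_assoc, inv_mul_cancel₀ h5,
      one_smul]

theorem pow_card {κ : Type} [Fintype κ] [DecidableEq κ] {e : Matrix (Finset κ) (Finset κ) ℂ}
    (he : ∀ S T, e S T ≠ 0 → T.card = S.card + 2) (k : ℕ) :
    ∀ S T, (e ^ k) S T ≠ 0 → T.card = S.card + 2 * k := by
  induction k with
  | zero =>
    intro S T h
    by_cases hST : S = T
    · simp [hST]
    · simp [Matrix.one_apply_ne hST] at h
  | succ k ih =>
    intro S T h
    rw [pow_succ, Matrix.mul_apply] at h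
    obtain ⟨U, -, hU⟩ := Finset.exists_ne_zero_of_sum_ne_zero h
    have a := ih S U (left_ne_zero_of_mul hU)
    have b := he U T (right_ne_zero_of_mul hU)
    omega

end JAC

theorem st_JAC : St_JAC := by
  intro κ _ _ m ⟨_, f, _, hf⟩ v hv h0
  have he := (st_KIT κ).2.2.2.1 m
  have h2 : E m * Hd Finset.univ = Hd Finset.univ * E m - (2 : ℂ) • E m := by
    ext S T
    simp only [Hd, Matrix.mul_diagonal, Matrix.diagonal_mul, Matrix.sub_apply, Matrix.smul_apply,
      Finset.inter_univ, smul_eq_mul]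
    by_cases h : E m S T = 0
    · simp [h]
    · rw [he S T h]
      push_cast
      ring
  funext S0
  by_contra hS
  let u : Finset κ → ℂ := fun S => if S.card = S0.card then v S else 0
  have hu : E m *ᵥ u = 0 := by
    funext S
    by_cases hc : S.card + 2 = S0.card
    · rw [← congrFun h0 S]
      simp only [Matrix.mulVec, dotProduct]
      refine Finset.sum_congr rfl fun T _ => ?_
      by_cases h : E m S T = 0
      · simp [h]
      · simp [u, he S T h, hc]
    · simp only [Matrix.mulVec, dotProduct, Pi.zero_apply]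
      refine Finset.sum_eq_zero fun T _ => ?_
      by_cases h : E m S T = 0
      · simp [h]
      · simp [u, he S T h, hc]
  have hl : Hd Finset.univ *ᵥ u = ((Fintype.card κ : ℂ) / 2 - (S0.card : ℂ)) • u := by
    funext S
    simp only [Hd, Matrix.mulVec_diagonal, Finset.inter_univ, Finset.card_univ, Pi.smul_apply,
      smul_eq_mul, u]
    split_ifs with h
    · rw [h]
    · simp
  have hk : ∀ k : ℕ, (Fintype.card κ : ℂ) / 2 - (S0.card : ℂ) - k ≠ 0 := by
    intro k hk
    have h3 := hv S0 hS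
    have h4 : (Fintype.card κ : ℂ) = ((2 * S0.card + 2 * k : ℕ) : ℂ) := by
      push_cast
      linear_combination 2 * hk
    have h5 := Nat.cast_injective h4
    omega
  obtain ⟨w, hw⟩ := JAC.mem_range hf h2 hu hl hk (Fintype.card κ + 1)
  have h6 : u S0 ≠ 0 := by simpa [u] using hS
  rw [hw] at h6
  obtain ⟨T, -, hT⟩ := Finset.exists_ne_zero_of_sum_ne_zero h6
  have h7 := JAC.pow_card he _ S0 T (left_ne_zero_of_mul hT)
  have h8 := Finset.card_le_univ T
  omega

end Pool.Agent.Lib.CH48
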