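import Pool.Agent.Lib.CH48.B_KIT

namespace Pool.Agent.Lib.CH48

open MvPolynomial

namespace KILL

variable {ι : Type} [DecidableEq ι]

/-- Partial product of the variables on the graph of a map. -/
noncomputable def gp (σ : ι → ι) (S : Finset ι) : MvPolynomial (ι × ι) ℂ :=
  ∏ x ∈ S, X (σ x, x)

theorem gp_out (σ : ι → ι) (a i : ι) (S : Finset ι) (h : i ∉ S) :
    pderiv (a, i) (gp σ S) = 0 := by
  induction S using Finset.induction_on with
  | empty => simp [gp]
  | insert x S hx ih =>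
    have h1 : i ≠ x := fun h2 => h (h2 ▸ Finset.mem_insert_self _ _)
    have h2 : i ∉ S := fun h3 => h (Finset.mem_insert_of_mem h3)
    have h3 : gp σ (insert x S) = X (σ x, x) * gp σ S := Finset.prod_insert hx
    have h4 : ((σ x, x) : ι × ι) ≠ (a, i) := fun h5 => h1 (congrArg Prod.snd h5).symm
    rw [h3, pderiv_mul, ih h2, pderiv_X_of_ne h4, zero_mul, mul_zero, add_zero]

theorem gp_der (σ : ι → ι) (a i : ι) (S : Finset ι) :
    pderiv (a, i) (gp σ S) = if i ∈ S ∧ σ i = a then gp σ (S.erase i) else 0 := by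
  by_cases h : i ∈ S
  · have h3 : gp σ S = X (σ i, i) * gp σ (S.erase i) :=
      (Finset.mul_prod_erase S (fun x => (X (σ x, x) : MvPolynomial (ι × ι) ℂ)) h).symm
    rw [h3, pderiv_mul, gp_out σ a i _ (Finset.notMem_erase _ _), mul_zero, add_zero]
    by_cases h1 : σ i = a
    · rw [if_pos ⟨h, h1⟩, h1, pderiv_X_self, one_mul]
    · have h4 : ((σ i, i) : ι × ι) ≠ (a, i) := fun h5 => h1 (congrArg Prod.fst h5)
      rw [if_neg (fun h5 => h1 h5.2), pderiv_X_of_ne h4, zero_mul]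
  · rw [gp_out σ a i S h, if_neg (fun h5 => h h5.1)]

variable [Fintype ι]

theorem two_der (a i b j : ι) :
    pderiv (a, i) (pderiv (b, j) (per ι)) =
      ∑ σ : Equiv.Perm ι, if i ≠ j ∧ σ i = a ∧ σ j = b then
        gp σ ((Finset.univ.erase j).erase i) else 0 := by
  have h0 : per ι = ∑ σ : Equiv.Perm ι, gp σ Finset.univ := rfl
  rw [h0, map_sum, map_sum]
  refine Finset.sum_congr rfl fun σ _ => ?_
  rw [gp_der]
  by_cases h1 : σ j = b
  · rw [if_pos ⟨Finset.mem_univ _, h1⟩, gp_der]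
    by_cases h2 : i ≠ j ∧ σ i = a
    · rw [if_pos ⟨Finset.mem_erase.2 ⟨h2.1, Finset.mem_univ _⟩, h2.2⟩, if_pos ⟨h2.1, h2.2, h1⟩]
    · rw [if_neg (fun h3 => h2 ⟨(Finset.mem_erase.1 h3.1).1, h3.2⟩),
        if_neg (fun h3 => h2 ⟨h3.1, h3.2.1⟩)]
  · rw [if_neg (fun h3 => h1 h3.2), map_zero, if_neg (fun h3 => h1 h3.2.2)]

theorem two_zero (a i b j : ι) (h : a = b ∨ i = j) :
    pderiv (a, i) (pderiv (b, j) (per ι)) = 0 := by
  rw [two_der]
  refine Finset.sum_eq_zero fun σ _ => if_neg ?_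
  rintro ⟨h1, h2, h3⟩
  rcases h with h | h
  · exact h1 (σ.injective (h2.trans (h.trans h3.symm)))
  · exact h1 h

theorem two_swap (a i b j : ι) :
    pderiv (b, i) (pderiv (a, j) (per ι)) = pderiv (a, i) (pderiv (b, j) (per ι)) := by
  rw [two_der, two_der]
  refine Fintype.sum_equiv (Equiv.mulRight (Equiv.swap i j)) _ _ fun σ => ?_
  have e1 : (Equiv.mulRight (Equiv.swap i j) σ) i = σ j := by simp
  have e2 : (Equiv.mulRight (Equiv.swap i j) σ) j = σ i := by simp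
  have e3 : gp (Equiv.mulRight (Equiv.swap i j) σ) ((Finset.univ.erase j).erase i) =
      gp σ ((Finset.univ.erase j).erase i) := by
    refine Finset.prod_congr rfl fun x hx => ?_
    have hx1 : x ≠ i := (Finset.mem_erase.1 hx).1
    have hx2 : x ≠ j := (Finset.mem_erase.1 (Finset.mem_erase.1 hx).2).1
    have e4 : (Equiv.mulRight (Equiv.swap i j) σ) x = σ x := by
      simp [Equiv.swap_apply_of_ne_of_ne hx1 hx2]
    rw [e4]
  rw [e1, e2, e3]
  by_cases h : i ≠ j ∧ σ i = b ∧ σ j = a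
  · rw [if_pos h, if_pos ⟨h.1, h.2.2, h.2.1⟩]
  · rw [if_neg h, if_neg (fun h3 => h ⟨h3.1, h3.2.2, h3.2.1⟩)]

/-- Exchange of the two row indices. -/
def exch (ι : Type) : (ι × ι) × (ι × ι) ≃ (ι × ι) × (ι × ι) where
  toFun p := ((p.2.1, p.1.2), (p.1.1, p.2.2))
  invFun p := ((p.2.1, p.1.2), (p.1.1, p.2.2))
  left_inv _ := rfl
  right_inv _ := rfl

end KILL

theorem st_KILL : St_KILL := by
  intro ι _ _ c hc
  have h0 : qop c (per ι) =
      ∑ p : (ι × ι) × (ι × ι), c p.1 p.2 • pderiv p.1 (pderiv p.2 (per ι)) := by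
    rw [Fintype.sum_prod_type]
    simp only [qop, LinearMap.sum_apply, LinearMap.smul_apply, LinearMap.comp_apply]
    rfl
  have h1 : qop c (per ι) =
      ∑ p : (ι × ι) × (ι × ι),
        c (p.2.1, p.1.2) (p.1.1, p.2.2) • pderiv p.1 (pderiv p.2 (per ι)) := by
    rw [h0]
    refine Fintype.sum_equiv (KILL.exch ι) _ _ ?_
    rintro ⟨⟨a, i⟩, ⟨b, j⟩⟩
    change c (a, i) (b, j) • pderiv (a, i) (pderiv (b, j) (per ι)) =
      c (a, i) (b, j) • pderiv (b, i) (pderiv (a, j) (per ι))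
    rw [KILL.two_swap a i b j]
  have h2 : qop c (per ι) + qop c (per ι) = 0 := by
    have h3 := congrArg₂ (· + ·) h0 h1
    rw [h3, ← Finset.sum_add_distrib]
    refine Finset.sum_eq_zero ?_
    rintro ⟨⟨a, i⟩, ⟨b, j⟩⟩ -
    change c (a, i) (b, j) • pderiv (a, i) (pderiv (b, j) (per ι)) +
      c (b, i) (a, j) • pderiv (a, i) (pderiv (b, j) (per ι)) = 0
    by_cases h4 : a = b ∨ i = j
    · rw [KILL.two_zero a i b j h4, smul_zero, smul_zero, add_zero]
    · rw [← add_smul, hc a b i j (fun h5 => h4 (Or.inl h5)) (fun h5 => h4 (Or.inr h5)),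
        zero_smul]
  have h5 : (2 : ℂ) • qop c (per ι) = 0 := by rw [two_smul, h2]
  exact (smul_eq_zero.1 h5).resolve_left two_ne_zero

end Pool.Agent.Lib.CH48
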