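import Pool.Agent.Lib.CH48.B_KIT

namespace Pool.Agent.Lib.CH48

open Polynomial Finset

namespace NUM

theorem mono (a k : ℕ) :
    a * a.centralBinom ^ 2 * 16 ^ k ≤ (a + k) * (a + k).centralBinom ^ 2 := by
  induction k with
  | zero => simp
  | succ k ih =>
    obtain ⟨m, hm⟩ : ∃ m, m = a + k := ⟨_, rfl⟩
    rw [← add_assoc, ← hm, pow_succ 16, ← mul_assoc]
    rw [← hm] at ih
    refine (Nat.mul_le_mul_right 16 ih).trans (Nat.le_of_mul_le_mul_left ?_ m.succ_pos)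
    have h := congrArg (· ^ 2) (Nat.succ_mul_centralBinom_succ m)
    simp only [Nat.succ_eq_add_one] at h ⊢
    nlinarith [Nat.zero_le (m.centralBinom ^ 2)]

theorem mid (n : ℕ) (hn : 0 < n) : 4 ^ n * n.choose (n / 2) ^ 2 ≤ 2 * n.centralBinom ^ 2 := by
  obtain ⟨p, rfl | rfl⟩ := Nat.even_or_odd' n
  · have h := mono p p
    rw [Nat.mul_div_cancel_left p two_pos, ← Nat.centralBinom, pow_mul]
    refine Nat.le_of_mul_le_mul_left (c := p) ?_ (by omega)
    rw [← two_mul] at h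
    norm_num
    linarith
  · have h := mono (p + 1) p
    have e : (p + 1).centralBinom = 2 * (2 * p + 1).choose p := by
      rw [Nat.centralBinom, show 2 * (p + 1) = 2 * p + 1 + 1 by ring, Nat.choose_succ_succ',
        Nat.choose_symm_half, two_mul ((2 * p + 1).choose p)]
    rw [show (2 * p + 1) / 2 = p by omega, pow_succ, pow_mul]
    refine Nat.le_of_mul_le_mul_left (c := p + 1) ?_ (by omega)
    rw [e, show p + 1 + p = 2 * p + 1 by ring] at h
    norm_num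
    nlinarith [Nat.zero_le ((2 * p + 1).centralBinom ^ 2)]

theorem alt (n : ℕ) :
    |∑ d ∈ range (n + 1), (-1 : ℤ) ^ (n - d) * (n.choose d : ℤ) ^ 2| ≤ n.choose (n / 2) := by
  have e : (X + C (-1 : ℤ)) ^ n * (X + C 1) ^ n = expand ℤ 2 ((X + C (-1)) ^ n) := by
    rw [← mul_pow, map_pow]
    congr 1
    simp only [map_add, expand_X, map_neg, map_one]
    ring
  have h := congrArg (fun p => p.coeff n) e
  simp only [coeff_mul, coeff_X_add_C_pow, coeff_expand two_pos, one_pow, one_mul] at h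
  rw [Finset.Nat.sum_antidiagonal_eq_sum_range_succ_mk] at h
  have e2 : ∑ d ∈ range (n + 1), (-1 : ℤ) ^ (n - d) * (n.choose d : ℤ) ^ 2 =
      ∑ d ∈ range n.succ, (-1 : ℤ) ^ (n - d) * (n.choose d : ℤ) * (n.choose (n - d) : ℤ) :=
    sum_congr rfl fun d hd => by
      rw [Nat.choose_symm (Nat.lt_succ_iff.1 (mem_range.1 hd))]
      ring
  rw [e2, h]
  split_ifs
  · simp [abs_mul]
  · simp

theorem cls (n ε : ℕ) (hε : ε < 2) : n.centralBinom ≤
    2 * ∑ d ∈ (range (n + 1)).filter (fun d => d % 2 = ε), n.choose d ^ 2 + n.choose (n / 2) := by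
  have h1 := sum_filter_add_sum_filter_not (range (n + 1)) (fun d => d % 2 = ε)
    fun d => (n.choose d : ℤ) ^ 2
  have h2 := sum_filter_add_sum_filter_not (range (n + 1)) (fun d => d % 2 = ε)
    fun d => (-1 : ℤ) ^ (n - d) * (n.choose d : ℤ) ^ 2
  have h3 : ∑ d ∈ range (n + 1), (n.choose d : ℤ) ^ 2 = n.centralBinom := by
    exact_mod_cast Nat.sum_range_choose_sq n
  have h4 : ∀ d ∈ (range (n + 1)).filter (fun d => d % 2 = ε),
      (-1 : ℤ) ^ (n - d) * (n.choose d : ℤ) ^ 2 = (-1) ^ (n + ε) * (n.choose d : ℤ) ^ 2 := by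
    intro d hd
    obtain ⟨a, b⟩ := mem_filter.1 hd
    have a := mem_range.1 a
    rw [neg_one_pow_eq_pow_mod_two, neg_one_pow_eq_pow_mod_two (n + ε),
      show (n - d) % 2 = (n + ε) % 2 by omega]
  have h5 : ∀ d ∈ (range (n + 1)).filter (fun d => ¬d % 2 = ε),
      (-1 : ℤ) ^ (n - d) * (n.choose d : ℤ) ^ 2 = -(-1) ^ (n + ε) * (n.choose d : ℤ) ^ 2 := by
    intro d hd
    obtain ⟨a, b⟩ := mem_filter.1 hd
    have a := mem_range.1 a
    rw [← neg_one_mul ((-1 : ℤ) ^ (n + ε)), ← pow_succ', neg_one_pow_eq_pow_mod_two,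
      neg_one_pow_eq_pow_mod_two (n + ε + 1), show (n - d) % 2 = (n + ε + 1) % 2 by omega]
  rw [sum_congr rfl h4, sum_congr rfl h5, ← mul_sum, ← mul_sum] at h2
  obtain ⟨h6, h7⟩ := abs_le.1 (alt n)
  obtain ⟨F, hF⟩ : ∃ F, F = (range (n + 1)).filter (fun d => d % 2 = ε) := ⟨_, rfl⟩
  rw [← hF] at h1 h2 ⊢
  zify
  rcases neg_one_pow_eq_or ℤ (n + ε) with s | s <;> rw [s] at h2 <;> linarith

end NUM

theorem st_NUM : St_NUM := by
  intro n r hn h
  have h1 := NUM.cls n ((n / 2 + 1) % 2) (Nat.mod_lt _ two_pos)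
  have h2 := Nat.mul_le_mul_left r (Nat.choose_le_middle (n / 2 + 1) n)
  have h3 : n.centralBinom ≤ (2 * r + 1) * n.choose (n / 2) := by nlinarith
  have h4 := (NUM.mid n hn).trans (Nat.mul_le_mul_left 2 (Nat.pow_le_pow_left h3 2))
  rw [mul_pow, ← mul_assoc] at h4
  exact Nat.le_of_mul_le_mul_right h4 (pow_pos (Nat.choose_pos (Nat.div_le_self _ _)) 2)

end Pool.Agent.Lib.CH48
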