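import Pool.Agent.Lib.CH48.B_KIT

namespace Pool.Agent.Lib.CH48

open Matrix MvPolynomial Module

namespace PHI

section Lin

variable {V P : Type} [AddCommGroup V] [Module ℂ V] [AddCommGroup P] [Module ℂ P]
  [FiniteDimensional ℂ V]

theorem rank_null (f : V →ₗ[ℂ] P) (T : Submodule ℂ V) :
    finrank ℂ ↥(T.map f) + finrank ℂ ↥(T ⊓ LinearMap.ker f) = finrank ℂ ↥T := by
  have h := LinearMap.finrank_range_add_finrank_ker (f.domRestrict T)
  rw [LinearMap.range_domRestrict, LinearMap.ker_domRestrict,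
    ← Submodule.finrank_map_subtype_eq T, Submodule.map_comap_subtype] at h
  exact h

theorem dim_le (Φ : V →ₗ[ℂ] P) (q : P →ₗ[ℂ] P) (F : V →ₗ[ℂ] V) (U : Submodule ℂ V)
    (hU : ∀ v ∈ U, F v ∈ U) (hq : ∀ v, q (Φ v) = Φ (F v)) :
    finrank ℂ ↥(U.map Φ ⊓ LinearMap.ker q) ≤ finrank ℂ ↥(U ⊓ LinearMap.ker F) := by
  let T : Submodule ℂ V := U ⊓ LinearMap.ker (q ∘ₗ Φ)
  have h1 : U.map Φ ⊓ LinearMap.ker q = T.map Φ := by
    apply le_antisymm
    · rintro p ⟨⟨v, hv, rfl⟩, hp⟩
      exact ⟨v, ⟨hv, hp⟩, rfl⟩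
    · rintro p ⟨v, ⟨hv, hp⟩, rfl⟩
      exact ⟨⟨v, hv, rfl⟩, hp⟩
  have h2 := rank_null Φ T
  have h3 := rank_null F T
  have h4 : T.map F ≤ T ⊓ LinearMap.ker Φ := by
    rintro p ⟨v, ⟨hv, hp⟩, rfl⟩
    have h5 : Φ (F v) = 0 := by
      rw [← hq v]
      exact hp
    refine ⟨⟨hU v hv, ?_⟩, h5⟩
    change q (Φ (F v)) = 0
    rw [h5, map_zero]
  have h6 : T ⊓ LinearMap.ker F ≤ U ⊓ LinearMap.ker F := inf_le_inf_right _ inf_le_left
  have h7 := Submodule.finrank_mono h4
  have h8 := Submodule.finrank_mono h6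
  rw [h1]
  omega

end Lin

variable {ι : Type} [Fintype ι] [DecidableEq ι]

/-- Subproduct of the linear forms. -/
noncomputable def pp (L : ι → ι × ι → ℂ) (S : Finset ι) : MvPolynomial (ι × ι) ℂ :=
  ∏ s ∈ S, lf (L s)

theorem lf_der (a : ι × ι → ℂ) (e : ι × ι) : pderiv e (lf a) = C (a e) := by
  rw [lf, map_sum, Finset.sum_eq_single e]
  · rw [pderiv_C_mul, pderiv_X_self, mul_one]
  · intro f _ hf
    rw [pderiv_C_mul, pderiv_X_of_ne hf, mul_zero]
  · intro h
    exact absurd (Finset.mem_univ e) h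

theorem pp_der (L : ι → ι × ι → ℂ) (e : ι × ι) (S : Finset ι) :
    pderiv e (pp L S) = ∑ s ∈ S, L s e • pp L (S.erase s) := by
  induction S using Finset.induction_on with
  | empty => simp [pp]
  | insert x S hx ih =>
    have h3 : pp L (insert x S) = lf (L x) * pp L S := Finset.prod_insert hx
    rw [h3, pderiv_mul, ih, lf_der, Finset.sum_insert hx, Finset.erase_insert hx,
      Finset.mul_sum, smul_eq_C_mul]
    congr 1
    refine Finset.sum_congr rfl fun s hs => ?_
    have h1 : x ≠ s := fun h => hx (h ▸ hs)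
    have h2 : x ∉ S.erase s := fun h => hx (Finset.mem_of_mem_erase h)
    have h4 : pp L (insert x (S.erase s)) = lf (L x) * pp L (S.erase s) := Finset.prod_insert h2
    rw [Finset.erase_insert_of_ne h1, h4, mul_smul_comm]

/-- The combination of subproducts with given coefficients. -/
noncomputable def phi (L : ι → ι × ι → ℂ) : (Finset ι → ℂ) →ₗ[ℂ] MvPolynomial (ι × ι) ℂ :=
  Fintype.linearCombination ℂ (pp L)

theorem phi_apply (L : ι → ι × ι → ℂ) (v : Finset ι → ℂ) : phi L v = ∑ S, v S • pp L S := rfl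

theorem a_col (s : ι) (T S : Finset ι) :
    A s T S = if s ∈ S ∧ T = S.erase s then 1 else 0 := by
  have h : (s ∉ T ∧ S = insert s T) ↔ (s ∈ S ∧ T = S.erase s) := by
    constructor
    · rintro ⟨h1, rfl⟩
      exact ⟨Finset.mem_insert_self _ _, (Finset.erase_insert h1).symm⟩
    · rintro ⟨h1, rfl⟩
      exact ⟨Finset.notMem_erase _ _, (Finset.insert_erase h1).symm⟩
  simp only [A, h]

theorem phi_A (L : ι → ι × ι → ℂ) (s : ι) (v : Finset ι → ℂ) :
    phi L (A s *ᵥ v) = ∑ S, v S • if s ∈ S then pp L (S.erase s) else 0 := by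
  rw [phi_apply]
  simp only [Matrix.mulVec, dotProduct, Finset.sum_smul]
  rw [Finset.sum_comm]
  refine Finset.sum_congr rfl fun S _ => ?_
  by_cases h : s ∈ S
  · rw [if_pos h, Finset.sum_eq_single (S.erase s)]
    · rw [a_col, if_pos ⟨h, rfl⟩, one_mul]
    · intro T _ hT
      rw [a_col, if_neg (fun h1 => hT h1.2), zero_mul, zero_smul]
    · intro h1
      exact absurd (Finset.mem_univ _) h1
  · rw [if_neg h, smul_zero]
    refine Finset.sum_eq_zero fun T _ => ?_
    rw [a_col, if_neg (fun h1 => h h1.1), zero_mul, zero_smul]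

/-- The matrix of a derivative. -/
noncomputable def dm (L : ι → ι × ι → ℂ) (e : ι × ι) : Matrix (Finset ι) (Finset ι) ℂ :=
  ∑ s, L s e • A s

theorem phi_der (L : ι → ι × ι → ℂ) (e : ι × ι) (v : Finset ι → ℂ) :
    pderiv e (phi L v) = phi L (dm L e *ᵥ v) := by
  have h1 : phi L (dm L e *ᵥ v) =
      ∑ s, L s e • ∑ S, v S • if s ∈ S then pp L (S.erase s) else 0 := by
    rw [dm, Matrix.sum_mulVec, map_sum]
    refine Finset.sum_congr rfl fun s _ => ?_
    rw [Matrix.smul_mulVec, map_smul, phi_A]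
  rw [h1, phi_apply, map_sum]
  simp only [Finset.smul_sum]
  rw [Finset.sum_comm]
  refine Finset.sum_congr rfl fun S _ => ?_
  rw [Derivation.map_smul, pp_der, Finset.smul_sum]
  rw [← Finset.sum_subset (Finset.subset_univ S)]
  · refine Finset.sum_congr rfl fun s hs => ?_
    rw [if_pos hs, smul_comm]
  · intro s _ hs
    rw [if_neg hs, smul_zero, smul_zero]

theorem e_eq (L : ι → ι × ι → ℂ) (c : ι × ι → ι × ι → ℂ) :
    E (mm c L) = ∑ e, ∑ f, c e f • (dm L e * dm L f) := by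
  have h1 : ∀ e f, c e f • (dm L e * dm L f) =
      ∑ s, ∑ t, (c e f * L s e * L t f) • (A s * A t) := by
    intro e f
    rw [dm, dm, Finset.sum_mul, Finset.smul_sum]
    refine Finset.sum_congr rfl fun s _ => ?_
    rw [Finset.mul_sum, Finset.smul_sum]
    refine Finset.sum_congr rfl fun t _ => ?_
    rw [smul_mul_assoc, mul_smul_comm, smul_smul, smul_smul]
  simp only [h1, E, mm, Finset.sum_smul]
  calc ∑ s, ∑ t, ∑ e, ∑ f, (c e f * L s e * L t f) • (A s * A t)
      = ∑ s, ∑ e, ∑ t, ∑ f, (c e f * L s e * L t f) • (A s * A t) :=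
        Finset.sum_congr rfl fun s _ => Finset.sum_comm
    _ = ∑ e, ∑ s, ∑ t, ∑ f, (c e f * L s e * L t f) • (A s * A t) := Finset.sum_comm
    _ = ∑ e, ∑ s, ∑ f, ∑ t, (c e f * L s e * L t f) • (A s * A t) :=
        Finset.sum_congr rfl fun e _ => Finset.sum_congr rfl fun s _ => Finset.sum_comm
    _ = ∑ e, ∑ f, ∑ s, ∑ t, (c e f * L s e * L t f) • (A s * A t) :=
        Finset.sum_congr rfl fun e _ => Finset.sum_comm

theorem qop_apply (c : ι × ι → ι × ι → ℂ) (p : MvPolynomial (ι × ι) ℂ) :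
    qop c p = ∑ e, ∑ f, c e f • pderiv e (pderiv f p) := by
  simp only [qop, LinearMap.sum_apply, LinearMap.smul_apply, LinearMap.comp_apply]
  rfl

theorem phi_q (L : ι → ι × ι → ℂ) (c : ι × ι → ι × ι → ℂ) (v : Finset ι → ℂ) :
    qop c (phi L v) = phi L (E (mm c L) *ᵥ v) := by
  rw [qop_apply, e_eq, Matrix.sum_mulVec, map_sum]
  refine Finset.sum_congr rfl fun e _ => ?_
  rw [Matrix.sum_mulVec, map_sum]
  refine Finset.sum_congr rfl fun f _ => ?_
  rw [Matrix.smul_mulVec, map_smul, phi_der, phi_der, Matrix.mulVec_mulVec]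

theorem dm_comm (L : ι → ι × ι → ℂ) (e : ι × ι) (m : ι → ι → ℂ) : Commute (E m) (dm L e) := by
  have hA := (st_KIT ι).1
  refine Commute.sum_left _ _ _ fun s _ => Commute.sum_left _ _ _ fun t _ => ?_
  refine Commute.sum_right _ _ _ fun u _ => ?_
  exact (((hA s u).mul_left (hA t u)).smul_left _).smul_right _

theorem dm_deg (L : ι → ι × ι → ℂ) (e : ι × ι) (d : ℕ) (v : Finset ι → ℂ)
    (hv : ∀ S : Finset ι, S.card ≠ d + 1 → v S = 0) (S : Finset ι) (hS : S.card ≠ d) :
    (dm L e *ᵥ v) S = 0 := by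
  rw [dm, Matrix.sum_mulVec, Finset.sum_apply]
  refine Finset.sum_eq_zero fun s _ => ?_
  rw [Matrix.smul_mulVec, Pi.smul_apply, KIT.vec]
  by_cases h : s ∈ S
  · rw [if_pos h, smul_zero]
  · rw [if_neg h, hv _ (by rw [Finset.card_insert_of_notMem h]; omega), smul_zero]

theorem e_par (m : ι → ι → ℂ) (ε : ℕ) (v : Finset ι → ℂ) (hv : v ∈ Vpar ι ε) :
    E m *ᵥ v ∈ Vpar ι ε := by
  intro S hS
  change ∑ T, E m S T * v T = 0
  refine Finset.sum_eq_zero fun T _ => ?_
  by_cases h : E m S T = 0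
  · rw [h, zero_mul]
  · have h1 := (st_KIT ι).2.2.2.1 m S T h
    rw [hv T (by omega), mul_zero]

variable {K : Type} [Fintype K]

/-- The sum over all products. -/
noncomputable def bigPhi (L : K → ι → ι × ι → ℂ) :
    (K → Finset ι → ℂ) →ₗ[ℂ] MvPolynomial (ι × ι) ℂ :=
  ∑ k, phi (L k) ∘ₗ LinearMap.proj k

theorem bigPhi_apply (L : K → ι → ι × ι → ℂ) (v : K → Finset ι → ℂ) :
    bigPhi L v = ∑ k, phi (L k) (v k) := by
  simp only [bigPhi, LinearMap.sum_apply, LinearMap.comp_apply, LinearMap.proj_apply]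

/-- A family of matrices acting componentwise. -/
noncomputable def act (M : K → Matrix (Finset ι) (Finset ι) ℂ) :
    (K → Finset ι → ℂ) →ₗ[ℂ] (K → Finset ι → ℂ) :=
  LinearMap.pi fun k => Matrix.mulVecLin (M k) ∘ₗ LinearMap.proj k

omit [Fintype K] in
theorem act_apply (M : K → Matrix (Finset ι) (Finset ι) ℂ) (v : K → Finset ι → ℂ) (k : K) :
    act M v k = M k *ᵥ v k := rfl

theorem big_der (L : K → ι → ι × ι → ℂ) (e : ι × ι) (v : K → Finset ι → ℂ) :
    pderiv e (bigPhi L v) = bigPhi L (act (fun k => dm (L k) e) v) := by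
  rw [bigPhi_apply, bigPhi_apply, map_sum]
  exact Finset.sum_congr rfl fun k _ => phi_der _ _ _

theorem big_q (L : K → ι → ι × ι → ℂ) (c : ι × ι → ι × ι → ℂ) (v : K → Finset ι → ℂ) :
    qop c (bigPhi L v) = bigPhi L (act (fun k => E (mm c (L k))) v) := by
  rw [bigPhi_apply, bigPhi_apply, map_sum]
  exact Finset.sum_congr rfl fun k _ => phi_q _ _ _

theorem big_q_der (L : K → ι → ι × ι → ℂ) (c : ι × ι → ι × ι → ℂ) (e : ι × ι)
    (v : K → Finset ι → ℂ) :
    qop c (pderiv e (bigPhi L v)) = pderiv e (qop c (bigPhi L v)) := by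
  rw [big_der, big_q, big_q, big_der]
  congr 1
  funext k
  rw [act_apply, act_apply, act_apply, act_apply, Matrix.mulVec_mulVec, Matrix.mulVec_mulVec,
    (dm_comm (L k) e _).eq]

/-- Families supported on sets of one size. -/
def vdeg (K ι : Type) (d : ℕ) : Submodule ℂ (K → Finset ι → ℂ) where
  carrier := {v | ∀ k (S : Finset ι), S.card ≠ d → v k S = 0}
  add_mem' := by
    intro a b ha hb k S hS
    simp [ha k S hS, hb k S hS]
  zero_mem' := by
    intro k S _
    rfl
  smul_mem' := by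
    intro c a ha k S hS
    simp [ha k S hS]

theorem ker_le (M : K → Matrix (Finset ι) (Finset ι) ℂ) (ε B : ℕ)
    (h : ∀ k, finrank ℂ ↥(LinearMap.ker (Matrix.mulVecLin (M k)) ⊓ Vpar ι ε) ≤ B) :
    finrank ℂ ↥(Submodule.pi Set.univ (fun _ : K => Vpar ι ε) ⊓ LinearMap.ker (act M)) ≤
      Fintype.card K * B := by
  let g : ↥(Submodule.pi Set.univ (fun _ : K => Vpar ι ε) ⊓ LinearMap.ker (act M)) →ₗ[ℂ]
      ((k : K) → ↥(LinearMap.ker (Matrix.mulVecLin (M k)) ⊓ Vpar ι ε)) :=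
    { toFun := fun v k => ⟨v.1 k, congrFun v.2.2 k, v.2.1 k (Set.mem_univ k)⟩
      map_add' := fun _ _ => rfl
      map_smul' := fun _ _ => rfl }
  have hg : Function.Injective g := by
    intro v w hvw
    apply Subtype.ext
    funext k
    exact congrArg Subtype.val (congrFun hvw k)
  refine (LinearMap.finrank_le_finrank_of_injective hg).trans ?_
  rw [Module.finrank_pi_fintype]
  refine (Finset.sum_le_sum fun k _ => h k).trans ?_
  simp

end PHI

theorem st_PHI (hSUB : St_SUB) : St_PHI := by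
  intro ι K _ _ _ L c ε B hper hq hB
  let U : Submodule ℂ (K → Finset ι → ℂ) := Submodule.pi Set.univ (fun _ : K => Vpar ι ε)
  let W : Submodule ℂ (MvPolynomial (ι × ι) ℂ) :=
    U.map (PHI.bigPhi L) ⊓ LinearMap.ker (qop c)
  haveI : Module.Finite ℂ W := Submodule.finiteDimensional_of_le (S₂ := U.map (PHI.bigPhi L))
    inf_le_left
  have h1 := hSUB ι (fun d => (PHI.vdeg K ι d).map (PHI.bigPhi L) ⊓ LinearMap.ker (qop c)) W ε
    ?_ ?_ ?_
  · refine h1.trans ((PHI.dim_le (PHI.bigPhi L) (qop c) (PHI.act fun k => E (mm c (L k))) U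
      ?_ (PHI.big_q L c)).trans (PHI.ker_le _ ε B hB))
    intro v hv k _
    exact PHI.e_par _ ε _ (hv k (Set.mem_univ k))
  · refine ⟨⟨fun _ S => if S = Finset.univ then 1 else 0, ?_, ?_⟩, hq⟩
    · intro k S hS
      exact if_neg fun h => hS (by rw [h, Finset.card_univ])
    · rw [PHI.bigPhi_apply, hper]
      refine Finset.sum_congr rfl fun k _ => ?_
      rw [PHI.phi_apply, Finset.sum_eq_single Finset.univ]
      · rw [if_pos rfl, one_smul]
        rfl
      · intro S _ hS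
        rw [if_neg hS, zero_smul]
      · intro h
        exact absurd (Finset.mem_univ _) h
  · rintro d e p ⟨⟨v, hv, rfl⟩, hp⟩
    refine ⟨⟨PHI.act (fun k => PHI.dm (L k) e) v, ?_, (PHI.big_der L e v).symm⟩, ?_⟩
    · intro k S hS
      exact PHI.dm_deg (L k) e d (v k) (hv k) S hS
    · have h2 : qop c (PHI.bigPhi L v) = 0 := hp
      change qop c (pderiv e (PHI.bigPhi L v)) = 0
      rw [PHI.big_q_der, h2, map_zero]
  · intro d hd
    refine inf_le_inf_right _ (Submodule.map_mono ?_)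
    intro v hv k _ S hS
    exact hv k S fun h => hS (by rw [h, hd])

end Pool.Agent.Lib.CH48
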