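import Pool.Agent.Lib.CH48.B_KIT

namespace Pool.Agent.Lib.CH48

open Matrix

namespace POS

variable {κ : Type} [Fintype κ] [DecidableEq κ]

theorem e_vec (m : κ → κ → ℂ) (v : Finset κ → ℂ) (S : Finset κ) :
    (E m *ᵥ v) S = ∑ s, ∑ t, m s t *
      if s ∈ S then 0 else if t ∈ insert s S then 0 else v (insert t (insert s S)) := by
  simp only [E, Matrix.sum_mulVec, Matrix.smul_mulVec, Finset.sum_apply, Pi.smul_apply,
    smul_eq_mul, ← Matrix.mulVec_mulVec, KIT.vec]

/-- extension by zero to the index set with one more point -/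
def ext (v : Finset κ → ℂ) : Finset (Option κ) → ℂ :=
  fun S => if none ∈ S then 0 else v (Finset.eraseNone S)

theorem en_ins (x : κ) (S : Finset (Option κ)) :
    Finset.eraseNone (insert (some x) S) = insert x (Finset.eraseNone S) := by
  ext y
  simp [Finset.mem_eraseNone]

theorem ext_e (m : Option κ → Option κ → ℂ) (v : Finset κ → ℂ) :
    E m *ᵥ ext v = ext (E (fun s t => m (some s) (some t)) *ᵥ v) := by
  funext S
  rw [e_vec]
  by_cases h : none ∈ S
  · simp [ext, h]
  · simp only [ext, h, if_false, e_vec, Fintype.sum_option]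
    simp [h, Finset.mem_eraseNone, en_ins]

theorem card_en (S : Finset (Option κ)) (h : none ∉ S) : (Finset.eraseNone S).card = S.card := by
  have h1 := Finset.map_some_eraseNone S
  rw [Finset.erase_eq_of_notMem h] at h1
  have h2 := congrArg Finset.card h1
  rwa [Finset.card_map] at h2

theorem good_of (m : Option κ → Option κ → ℂ) (hκ : ¬ Even (Fintype.card κ)) (h : Good m) :
    Good (fun s t => m (some s) (some t)) := by
  intro v hv h0
  have h1 : ext v = 0 := by
    apply h
    · intro S hS
      by_cases hn : none ∈ S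
      · simp [ext, hn] at hS
      · simp only [ext, hn, if_false] at hS
        have := hv _ hS
        rw [card_en S hn] at this
        rw [Fintype.card_option]
        rw [Nat.even_iff] at hκ
        omega
    · rw [ext_e, h0]
      funext S
      simp [ext]
  funext S
  have := congrFun h1 (S.map Function.Embedding.some)
  simpa [ext] using this

end POS

theorem st_POS (hBLK : St_BLK) (hJAC : St_JAC) : St_POS := by
  intro κ ι _ _ _ _ p
  by_cases h : Even (Fintype.card κ)
  · obtain ⟨c, hc, ht⟩ := hBLK κ ι p h
    exact ⟨c, hc, hJAC κ _ ht⟩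
  · have hne : Nonempty κ := by
      rw [← Fintype.card_pos_iff]
      rcases Nat.eq_zero_or_pos (Fintype.card κ) with h0 | h0
      · exact absurd (h0 ▸ Even.zero) h
      · exact h0
    obtain ⟨s₀⟩ := hne
    obtain ⟨c, hc, ht⟩ := hBLK (Option κ) ι (fun s => p (s.getD s₀)) (by
      rw [Fintype.card_option]
      rw [Nat.even_iff] at h ⊢
      omega)
    have h2 := POS.good_of (fun s t : Option κ => c (p (s.getD s₀)) (p (t.getD s₀))) h
      (hJAC (Option κ) _ ht)
    simp only [Option.getD_some] at h2
    exact ⟨c, hc, h2⟩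

end Pool.Agent.Lib.CH48
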