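import Pool.Agent.Lib.CH48.B_KIT

namespace Pool.Agent.Lib.CH48

open Matrix

namespace SCL

theorem entry {κ : Type} [Fintype κ] [DecidableEq κ] (m : κ → κ → ℂ) (u : κ → ℂ)
    (S T : Finset κ) :
    E (fun s t => u s * u t * m s t) S T * ∏ s ∈ S, u s = E m S T * ∏ s ∈ T, u s := by
  rw [KIT.e_apply, KIT.e_apply, Finset.sum_mul, Finset.sum_mul]
  refine Finset.sum_congr rfl fun s _ => ?_
  rw [Finset.sum_mul, Finset.sum_mul]
  refine Finset.sum_congr rfl fun t _ => ?_
  by_cases h : s ∉ S ∧ t ∉ S ∧ s ≠ t ∧ T = insert t (insert s S)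
  · rw [if_pos h]
    obtain ⟨a, b, c, rfl⟩ := h
    rw [Finset.prod_insert (by simp [b, c.symm]), Finset.prod_insert a]
    ring
  · rw [if_neg h]
    ring

end SCL

theorem st_SCL : St_SCL := by
  intro κ _ _ m u hu hg v hv hE
  have hd : ∀ S : Finset κ, ∏ s ∈ S, u s ≠ 0 := fun S =>
    Finset.prod_ne_zero_iff.2 fun s _ => hu s
  have h1 := hg (fun T => v T / ∏ s ∈ T, u s) (fun S hS => hv S (fun h0 => hS (by simp [h0])))
    (by
      funext S
      have h2 : ∑ T, E m S T * v T = 0 := congrFun hE S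
      have h3 : (∑ T, E (fun s t => u s * u t * m s t) S T * (v T / ∏ s ∈ T, u s)) *
          ∏ s ∈ S, u s = 0 := by
        rw [Finset.sum_mul, ← h2]
        refine Finset.sum_congr rfl fun T _ => ?_
        have h4 := SCL.entry m u S T
        have h5 := hd T
        rw [mul_right_comm, h4]
        field_simp
      exact (mul_eq_zero.1 h3).resolve_right (hd S))
  funext S
  have h6 : v S / ∏ s ∈ S, u s = 0 := congrFun h1 S
  exact (div_eq_zero_iff.1 h6).resolve_right (hd S)

end Pool.Agent.Lib.CH48
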