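import Pool.Agent.Lib.CH48.B_KIT

namespace Pool.Agent.Lib.CH48

open Matrix MvPolynomial

namespace SUB

variable {ι : Type} [Fintype ι] [DecidableEq ι]

/-- The exponent of a partial permutation monomial. -/
noncomputable def g (σ : Equiv.Perm ι) (A : Finset ι) : ι × ι →₀ ℕ :=
  ∑ i ∈ A, Finsupp.single (σ i, i) 1

omit [Fintype ι] in
theorem g_apply (σ : Equiv.Perm ι) (A : Finset ι) (a j : ι) :
    g σ A (a, j) = if j ∈ A ∧ σ j = a then 1 else 0 := by
  rw [g, Finset.sum_apply']
  by_cases hj : j ∈ A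
  · rw [Finset.sum_eq_single_of_mem j hj fun i _ hi => by simp [hi]]
    by_cases h : σ j = a <;> simp [hj, h]
  · rw [Finset.sum_eq_zero fun i hi => by
      have : i ≠ j := fun e => hj (e ▸ hi)
      simp [this]]
    simp [hj]

/-- The subpermanent on the columns `A`. -/
noncomputable def P (τ : Equiv.Perm ι) (A : Finset ι) : MvPolynomial (ι × ι) ℂ :=
  ∑ σ ∈ Finset.univ.filter (fun σ : Equiv.Perm ι => ∀ i, i ∉ A → σ i = τ i), monomial (g σ A) 1

theorem P_univ (τ : Equiv.Perm ι) : P τ Finset.univ = per ι := by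
  rw [P, per, Matrix.permanent, Finset.filter_true_of_mem (by simp)]
  refine Finset.sum_congr rfl fun σ _ => ?_
  rw [g, monomial_sum_one]
  rfl

theorem P_deriv (τ : Equiv.Perm ι) (A : Finset ι) {j : ι} (hj : j ∉ A) :
    pderiv (τ j, j) (P τ (insert j A)) = P τ A := by
  rw [P, P, map_sum, Finset.sum_filter, Finset.sum_filter]
  refine Finset.sum_congr rfl fun σ _ => ?_
  rw [pderiv_monomial, g_apply]
  by_cases h : σ j = τ j
  · have e : g σ (insert j A) - Finsupp.single (τ j, j) 1 = g σ A := by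
      rw [g, Finset.sum_insert hj, h, add_tsub_cancel_left, g]
    have e2 : (∀ i, i ∉ insert j A → σ i = τ i) ↔ ∀ i, i ∉ A → σ i = τ i := by
      refine ⟨fun h1 i hi => ?_, fun h1 i hi => h1 i fun h2 => hi (Finset.mem_insert_of_mem h2)⟩
      by_cases hij : i = j
      · rw [hij, h]
      · exact h1 i (by simp [hij, hi])
    simp only [e, e2, h, Finset.mem_insert_self, and_self, if_true, Nat.cast_one, mul_one]
  · rw [if_neg (fun h1 : ∀ i, i ∉ A → σ i = τ i => h (h1 j hj))]
    simp [h]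

theorem P_mem (Z : ℕ → Submodule ℂ (MvPolynomial (ι × ι) ℂ)) (h0 : per ι ∈ Z (Fintype.card ι))
    (h1 : ∀ d e p, p ∈ Z (d + 1) → pderiv e p ∈ Z d) (τ : Equiv.Perm ι) (k : ℕ) :
    ∀ A : Finset ι, A.card + k = Fintype.card ι → P τ A ∈ Z A.card := by
  induction k with
  | zero =>
    intro A hA
    rw [Finset.eq_univ_of_card A hA, P_univ]
    exact h0
  | succ k ih =>
    intro A hA
    obtain ⟨j, hj⟩ : ∃ j, j ∉ A := by
      by_contra h
      have : A = Finset.univ := Finset.eq_univ_of_forall fun j => by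
        by_contra h2
        exact h ⟨j, h2⟩
      rw [this, Finset.card_univ] at hA
      omega
    have h2 := ih (insert j A) (by rw [Finset.card_insert_of_notMem hj]; omega)
    rw [Finset.card_insert_of_notMem hj] at h2
    rw [← P_deriv τ A hj]
    exact h1 _ _ _ h2

omit [Fintype ι] in
theorem g_eq {σ τ : Equiv.Perm ι} {A B : Finset ι} (h : g σ A = g τ B) :
    ∀ j ∈ A, j ∈ B ∧ τ j = σ j := by
  intro j hj
  have h1 := g_apply σ A (σ j) j
  rw [h, g_apply, if_pos (⟨hj, rfl⟩ : j ∈ A ∧ σ j = σ j)] at h1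
  by_contra h2
  simp [h2] at h1

theorem coeff_self (τ : Equiv.Perm ι) (A : Finset ι) : coeff (g τ A) (P τ A) = 1 := by
  rw [P, coeff_sum, Finset.sum_eq_single_of_mem τ (by simp)]
  · simp
  · intro σ hσ hne
    rw [coeff_monomial, if_neg]
    intro h
    refine hne (Equiv.ext fun i => ?_)
    by_cases hi : i ∈ A
    · exact (g_eq h i hi).2.symm
    · exact (Finset.mem_filter.1 hσ).2 i hi

theorem coeff_ne {τ τ' : Equiv.Perm ι} {A A' B B' : Finset ι} (hτ : ∀ i, i ∈ A ↔ τ i ∈ B)
    (hτ' : ∀ i, i ∈ A' ↔ τ' i ∈ B') (hc : B'.card = A'.card) (hc0 : B.card = A.card)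
    (h : coeff (g τ A) (P τ' A') ≠ 0) : A = A' ∧ B = B' := by
  rw [P, coeff_sum] at h
  obtain ⟨σ, hσ, h⟩ := Finset.exists_ne_zero_of_sum_ne_zero h
  rw [coeff_monomial] at h
  have e : g σ A' = g τ A := by
    by_contra h2
    exact h (if_neg h2)
  have hA : A = A' := Finset.Subset.antisymm (fun j hj => (g_eq e.symm j hj).1)
    fun j hj => (g_eq e j hj).1
  subst hA
  refine ⟨rfl, Finset.eq_of_subset_of_card_le (fun b hb => ?_) (by omega)⟩
  by_contra hb'
  have h1 : τ.symm b ∈ A := (hτ _).2 (by simpa using hb)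
  have h2 : τ'.symm b ∉ A := fun h3 => hb' (by simpa using (hτ' _).1 h3)
  have h3 : σ (τ.symm b) = b := by simpa using (g_eq e _ h1).2.symm
  have h4 : σ (τ'.symm b) = b := by simpa using (Finset.mem_filter.1 hσ).2 _ h2
  exact h2 (σ.injective (h3.trans h4.symm) ▸ h1)

omit [Fintype ι] in
theorem ex_perm (A B : Finset ι) (h : A.card = B.card) :
    ∃ τ : Equiv.Perm ι, ∀ i, i ∈ A ↔ τ i ∈ B := by
  obtain ⟨τ, hτ⟩ := Equiv.Perm.exists_map_finset_eq A B h
  exact ⟨τ, fun i => by rw [← hτ]; simp⟩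

theorem card_eq (ε : ℕ) :
    (Finset.univ.filter fun p : Finset ι × Finset ι =>
      p.1.card = p.2.card ∧ p.1.card % 2 = ε).card =
    ∑ d ∈ (Finset.range (Fintype.card ι + 1)).filter (fun d => d % 2 = ε),
      (Fintype.card ι).choose d ^ 2 := by
  rw [Finset.card_eq_sum_card_fiberwise (f := fun p : Finset ι × Finset ι => p.1.card)
    (t := (Finset.range (Fintype.card ι + 1)).filter fun d => d % 2 = ε)]
  · refine Finset.sum_congr rfl fun d hd => ?_
    have hd2 := (Finset.mem_filter.1 hd).2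
    rw [pow_two, ← Finset.card_univ, ← Finset.card_powersetCard, ← Finset.card_product]
    congr 1
    ext p
    simp only [Finset.mem_filter, Finset.mem_univ, true_and, Finset.mem_product,
      Finset.mem_powersetCard, Finset.subset_univ]
    omega
  · intro p hp
    have h1 := (Finset.mem_filter.1 (Finset.mem_coe.1 hp)).2.2
    have h2 := Finset.card_le_univ p.1
    simp only [Finset.coe_filter, Finset.mem_range, Set.mem_ofPred_eq]
    exact ⟨by omega, h1⟩

end SUB

theorem st_SUB : St_SUB := by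
  intro ι _ _ Z W _ ε h0 h1 hW
  rw [← SUB.card_eq ε, ← Fintype.card_subtype]
  have hex : ∀ p : {p : Finset ι × Finset ι // p.1.card = p.2.card ∧ p.1.card % 2 = ε},
      ∃ τ : Equiv.Perm ι, ∀ i, i ∈ p.1.1 ↔ τ i ∈ p.1.2 := fun p => SUB.ex_perm _ _ p.2.1
  choose τ hτ using hex
  have hm : ∀ p, SUB.P (τ p) p.1.1 ∈ W := fun p => hW _ p.2.2
    (SUB.P_mem Z h0 h1 (τ p) (Fintype.card ι - p.1.1.card) _
      (Nat.add_sub_cancel' (Finset.card_le_univ _)))
  have hl : LinearIndependent ℂ fun p => (⟨SUB.P (τ p) p.1.1, hm p⟩ : W) := by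
    refine LinearIndependent.of_pairwise_dual_eq_zero_one _
      (fun p => (lcoeff ℂ (SUB.g (τ p) p.1.1)).comp W.subtype) (fun p q hpq => ?_) fun p => ?_
    · by_contra h
      obtain ⟨e1, e2⟩ := SUB.coeff_ne (hτ p) (hτ q) q.2.1.symm p.2.1.symm h
      exact hpq (Subtype.ext (Prod.ext e1 e2))
    · exact SUB.coeff_self _ _
  exact hl.fintype_card_le_finrank

end Pool.Agent.Lib.CH48
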