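import Pool.Agent.Lib.CH48.B_KIT

namespace Pool.Agent.Lib.CH48

namespace TOR

/-- an injective additive weight on positions -/
def wt {n : ℕ} (e : Fin n × Fin n) : ℕ := n * e.1.val + e.2.val

theorem wt_inj {n : ℕ} {e f : Fin n × Fin n} (h : wt e = wt f) : e = f := by
  obtain ⟨a, i⟩ := e
  obtain ⟨b, j⟩ := f
  simp only [wt] at h
  have hn : 0 < n := a.pos
  have h1 : (n * a.val + i.val) / n = (n * b.val + j.val) / n := by rw [h]
  have h2 : (n * a.val + i.val) % n = (n * b.val + j.val) % n := by rw [h]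
  rw [Nat.mul_add_div hn, Nat.mul_add_div hn, Nat.div_eq_of_lt i.2, Nat.div_eq_of_lt j.2] at h1
  rw [Nat.mul_add_mod, Nat.mul_add_mod, Nat.mod_eq_of_lt i.2, Nat.mod_eq_of_lt j.2] at h2
  exact Prod.ext (Fin.ext (by simpa using h1)) (Fin.ext h2)

theorem least {n : ℕ} (l : Fin n × Fin n → ℂ) (hl : l ≠ 0) :
    ∃ e, l e ≠ 0 ∧ ∀ f, l f ≠ 0 → wt e ≤ wt f := by
  classical
  have hne : (Finset.univ.filter fun e => l e ≠ 0).Nonempty := by
    obtain ⟨e, he⟩ := Function.ne_iff.1 hl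
    exact ⟨e, by simpa using he⟩
  obtain ⟨e, he, h⟩ := Finset.exists_min_image _ wt hne
  exact ⟨e, by simpa using he, fun f hf => h f (by simpa using hf)⟩

theorem at_zero {n : ℕ} (l : Fin n × Fin n → ℂ) (e : Fin n × Fin n) (he : l e ≠ 0)
    (h : ∀ f, l f ≠ 0 → wt e ≤ wt f) (f : Fin n × Fin n) :
    l f / l e * (0 : ℂ) ^ (wt f - wt e) = if f = e then 1 else 0 := by
  by_cases hf : f = e
  · subst hf
    simp [he]
  · by_cases h0 : l f = 0
    · simp [h0, hf]
    · have h1 := h f h0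
      have h2 : wt f ≠ wt e := fun h3 => hf (wt_inj h3)
      have h3 : wt f - wt e ≠ 0 := by omega
      simp [hf, h3]

theorem at_x {n : ℕ} (l : Fin n × Fin n → ℂ) (e : Fin n × Fin n)
    (h : ∀ f, l f ≠ 0 → wt e ≤ wt f) (x : ℂ) (hx : x ≠ 0) (f : Fin n × Fin n) :
    l f / l e * x ^ (wt f - wt e) = ((l e)⁻¹ * (x ^ wt e)⁻¹) * (x ^ wt f * l f) := by
  by_cases h0 : l f = 0
  · simp [h0]
  · rw [pow_sub₀ _ hx (h f h0), div_eq_mul_inv]
    ring

end TOR

theorem st_TOR (hFIN : St_FIN) (hSCL : St_SCL) (hPOS : St_POS) : St_TOR := by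
  intro κ _ _ n L hL
  choose p hp hmin using fun s => TOR.least (L s) (hL s)
  obtain ⟨c, hc, hg⟩ := hPOS κ (Fin n) p
  let l : κ → Fin n × Fin n → Polynomial ℂ :=
    fun s f => Polynomial.C (L s f / L s (p s)) * Polynomial.X ^ (TOR.wt f - TOR.wt (p s))
  let m : κ → κ → Polynomial ℂ := fun s t => ∑ e, ∑ f, Polynomial.C (c e f) * l s e * l t f
  have hm : ∀ x s t, (m s t).eval x = ∑ e, ∑ f, c e f *
      (L s e / L s (p s) * x ^ (TOR.wt e - TOR.wt (p s))) *
      (L t f / L t (p t) * x ^ (TOR.wt f - TOR.wt (p t))) := by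
    intro x s t
    simp only [m, l, Polynomial.eval_finset_sum, Polynomial.eval_mul, Polynomial.eval_C,
      Polynomial.eval_pow, Polynomial.eval_X]
  have h0 : (fun s t => (m s t).eval 0) = fun s t => c (p s) (p t) := by
    funext s t
    rw [hm]
    simp only [TOR.at_zero _ _ (hp _) (hmin _)]
    simp
  have hfin := hFIN κ m 0 (by rw [h0]; exact hg)
  obtain ⟨x, hx⟩ := (hfin.insert 0).exists_notMem
  simp only [Set.mem_insert_iff, Set.mem_setOf_eq, not_or, not_not] at hx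
  obtain ⟨hx0, hx⟩ := hx
  refine ⟨fun e f => c e f * x ^ TOR.wt e * x ^ TOR.wt f, ?_, ?_⟩
  · intro a b i j hab hij
    have h1 := hc a b i j hab hij
    simp only [TOR.wt, pow_add]
    linear_combination (x ^ (n * a.val) * x ^ i.val * x ^ (n * b.val) * x ^ j.val) * h1
  · apply hSCL κ _ (fun s => (L s (p s))⁻¹ * (x ^ TOR.wt (p s))⁻¹)
    · intro s
      exact mul_ne_zero (inv_ne_zero (hp s)) (inv_ne_zero (pow_ne_zero _ hx0))
    · have h2 : (fun s t => (m s t).eval x) = fun s t =>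
          ((L s (p s))⁻¹ * (x ^ TOR.wt (p s))⁻¹) * ((L t (p t))⁻¹ * (x ^ TOR.wt (p t))⁻¹) *
            mm (fun e f => c e f * x ^ TOR.wt e * x ^ TOR.wt f) L s t := by
        funext s t
        rw [hm]
        simp only [TOR.at_x _ _ (hmin _) x hx0, mm, Finset.mul_sum]
        refine Finset.sum_congr rfl fun e _ => Finset.sum_congr rfl fun f _ => ?_
        ring
      rw [← h2]
      exact hx

end Pool.Agent.Lib.CH48
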