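import Pool.Agent.Lib.CH48.B_KIT

namespace Pool.Agent.Lib.CH48

open Matrix
open scoped ComplexOrder

namespace TR

theorem left_inv {P Q : Type} [Fintype P] [Fintype Q] [DecidableEq Q] (Y : Matrix P Q ℂ)
    (hY : ∀ v, Y *ᵥ v = 0 → v = 0) : ∃ G : Matrix Q P ℂ, G * Y = 1 := by
  have h1 : IsUnit (Yᴴ * Y) := by
    refine mulVec_injective_iff_isUnit.1 fun u v huv => ?_
    have : (Yᴴ * Y) *ᵥ (u - v) = 0 := by rw [mulVec_sub, huv, sub_self]
    exact sub_eq_zero.1 (hY _ ((conjTranspose_mul_self_mulVec_eq_zero Y _).1 this))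
  obtain ⟨B, hB⟩ := h1.exists_left_inv
  exact ⟨B * Yᴴ, by rw [Matrix.mul_assoc, hB]⟩

theorem tr_eq {P Q : Type} [Fintype P] [Fintype Q] [DecidableEq P] [DecidableEq Q]
    (Y : Matrix P Q ℂ) (h1 : ∀ v, Y *ᵥ v = 0 → v = 0) (h2 : ∀ v, Yᴴ *ᵥ v = 0 → v = 0)
    (a : Matrix P P ℂ) (b : Matrix Q Q ℂ) (h : Y * b = a * Y) : trace a = trace b := by
  obtain ⟨G, hG⟩ := left_inv Y h1
  obtain ⟨G', hG'⟩ := left_inv Yᴴ h2
  have h3 : Y * G'ᴴ = 1 := by
    have := congrArg conjTranspose hG'
    simpa using this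
  have h4 : Y * G = 1 := by
    have : G = G'ᴴ := by rw [← Matrix.mul_one G, ← h3, ← Matrix.mul_assoc, hG, Matrix.one_mul]
    rw [this, h3]
  calc trace a = trace (a * Y * G) := by rw [Matrix.mul_assoc, h4, Matrix.mul_one]
    _ = trace (G * (Y * b)) := by rw [trace_mul_comm, h]
    _ = trace b := by rw [← Matrix.mul_assoc, hG, Matrix.one_mul]

variable {N : Type} [Fintype N] [DecidableEq N]

theorem pow_wt {U : Matrix N N ℂ} {h : N → ℤ} (hU : ∀ x y, U x y ≠ 0 → h x = h y + 1) (m : ℕ) :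
    ∀ x y, (U ^ m) x y ≠ 0 → h x = h y + m := by
  induction m with
  | zero =>
    intro x y hxy
    by_cases e : x = y
    · simp [e]
    · simp [e] at hxy
  | succ m ih =>
    intro x y hxy
    rw [pow_succ, Matrix.mul_apply] at hxy
    obtain ⟨u, -, hu⟩ := Finset.exists_ne_zero_of_sum_ne_zero hxy
    have h1 := ih x u (left_ne_zero_of_mul hu)
    have h2 := hU u y (right_ne_zero_of_mul hu)
    push_cast
    omega

omit [DecidableEq N] in
theorem sum_sub (p : N → Prop) [DecidablePred p] (f : N → ℂ) (hf : ∀ x, f x ≠ 0 → p x) :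
    ∑ x : {x // p x}, f x = ∑ x, f x := by
  rw [← Finset.sum_subtype (Finset.univ.filter p) (by simp) f]
  exact Finset.sum_filter_of_ne fun x _ => hf x

omit [DecidableEq N] in
theorem inj_sub (p q : N → Prop) [DecidablePred p] [DecidablePred q] (X : Matrix N N ℂ)
    (hX : ∀ x y, X x y ≠ 0 → q y → p x)
    (hi : ∀ v : N → ℂ, (∀ x, v x ≠ 0 → q x) → X *ᵥ v = 0 → v = 0) (v : {x // q x} → ℂ)
    (hv : X.submatrix (Subtype.val : {x // p x} → N) (Subtype.val : {x // q x} → N) *ᵥ v = 0) :
    v = 0 := by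
  let u : N → ℂ := fun x => if hx : q x then v ⟨x, hx⟩ else 0
  have hu : ∀ x, u x ≠ 0 → q x := fun x hx => by
    by_contra h
    exact hx (dif_neg h)
  have h0 : u = 0 := by
    refine hi u hu (funext fun x => ?_)
    by_cases hx : p x
    · have h1 := congrFun hv ⟨x, hx⟩
      have h2 := sum_sub q (fun y => X x y * u y) fun y hy => hu y (right_ne_zero_of_mul hy)
      refine h2.symm.trans (Eq.trans ?_ h1)
      exact Finset.sum_congr rfl fun y _ => by simp [u, y.2]
    · refine Finset.sum_eq_zero fun y _ => ?_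
      by_contra hy
      exact hx (hX x y (left_ne_zero_of_mul hy) (hu y (right_ne_zero_of_mul hy)))
  ext y
  simpa [u, y.2] using congrFun h0 y

theorem level (hHL : St_HL) {U : Matrix N N ℂ} {h : N → ℤ}
    (hH : U * Uᴴ - Uᴴ * U = diagonal (fun x => (2 * h x : ℂ)))
    (hU : ∀ x y, U x y ≠ 0 → h x = h y + 1) {z : Matrix N N ℂ} (hz : Commute z (U * U)) (j : ℕ) :
    ∑ x : {x // h x = j}, z x x = ∑ x : {x // h x = -j}, z x x := by
  have hw := pow_wt hU (2 * j)
  have hc : z * U ^ (2 * j) = U ^ (2 * j) * z := by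
    rw [pow_mul, pow_two]
    exact (hz.pow_right j).eq
  have hH' : Uᴴ * Uᴴᴴ - Uᴴᴴ * Uᴴ = diagonal (fun x => (2 * ((-h x : ℤ) : ℂ))) := by
    rw [conjTranspose_conjTranspose, ← neg_sub, hH, diagonal_neg]
    simp
  have hU' : ∀ x y, Uᴴ x y ≠ 0 → -h x = -h y + 1 := by
    intro x y hxy
    have : U y x ≠ 0 := fun e => hxy (by simp [e])
    have := hU y x this
    omega
  refine tr_eq ((U ^ (2 * j)).submatrix (Subtype.val : {x // h x = j} → N)
    (Subtype.val : {x // h x = -j} → N)) ?_ ?_ (z.submatrix Subtype.val Subtype.val)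
    (z.submatrix Subtype.val Subtype.val) ?_
  · refine inj_sub _ _ _ (fun x y hxy hy => ?_) (hHL N U h hH hU j)
    have := hw x y hxy
    push_cast at this
    omega
  · rw [conjTranspose_submatrix, conjTranspose_pow]
    refine inj_sub _ _ _ (fun x y hxy hy => ?_) fun v hv =>
      hHL N Uᴴ (fun x => -h x) hH' hU' j v fun x hx => by rw [hv x hx]
    have := pow_wt (h := fun x => -h x) hU' (2 * j) x y hxy
    push_cast at this
    omega
  · ext x y
    have h1 := sum_sub (fun u => h u = -j) (fun u => (U ^ (2 * j)) x u * z u y) fun u hu => by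
      have := hw x u (left_ne_zero_of_mul hu)
      have := x.2
      push_cast at *
      omega
    have h2 := sum_sub (fun u => h u = j) (fun u => z x u * (U ^ (2 * j)) u y) fun u hu => by
      have := hw u y (right_ne_zero_of_mul hu)
      have := y.2
      push_cast at *
      omega
    exact h1.trans ((congrFun (congrFun hc.symm x) y).trans h2.symm)

end TR

theorem st_TR (hHL : St_HL) : St_TR := by
  intro N _ _ U h hH hU z hz
  have h1 : ∀ w : ℤ, ∑ x : {x // h x = w}, z x x = ∑ x : {x // h x = -w}, z x x := by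
    intro w
    obtain ⟨j, rfl | rfl⟩ := w.eq_nat_or_neg
    · exact TR.level hHL hH hU hz j
    · rw [neg_neg]
      exact (TR.level hHL hH hU hz j).symm
  have h2 : ∀ w : ℤ, ∑ x ∈ Finset.univ.filter (fun x => h x = w), (h x : ℂ) * z x x =
      w * ∑ x : {x // h x = w}, z x x := by
    intro w
    rw [← Finset.sum_subtype (Finset.univ.filter fun x => h x = w) (by simp) fun x => z x x,
      Finset.mul_sum]
    exact Finset.sum_congr rfl fun x hx => by rw [(Finset.mem_filter.1 hx).2]
  rw [← Finset.sum_fiberwise_of_maps_to (s := Finset.univ)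
    (t := Finset.univ.image h ∪ Finset.univ.image fun x => -h x) (g := h) (by simp)]
  refine Finset.sum_involution (fun w _ => -w) (fun w _ => ?_) (fun w _ hw e => hw ?_)
    (fun w hw => ?_) fun w _ => neg_neg w
  · rw [h2, h2, ← h1 w]
    push_cast
    ring
  · have : w = 0 := by omega
    rw [h2, this]
    simp
  · simp only [Finset.mem_union, Finset.mem_image, Finset.mem_univ, true_and] at hw ⊢
    rcases hw with ⟨x, hx⟩ | ⟨x, hx⟩
    · exact Or.inr ⟨x, by rw [hx]⟩
    · exact Or.inl ⟨x, by rw [← hx, neg_neg]⟩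

end Pool.Agent.Lib.CH48
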