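import Pool.Agent.Lib.CH48.B_ADD
import Pool.Agent.Lib.CH48.B_BLK
import Pool.Agent.Lib.CH48.B_CNT
import Pool.Agent.Lib.CH48.B_COM
import Pool.Agent.Lib.CH48.B_DUAL
import Pool.Agent.Lib.CH48.B_FIN
import Pool.Agent.Lib.CH48.B_HL
import Pool.Agent.Lib.CH48.B_JAC
import Pool.Agent.Lib.CH48.B_KILL
import Pool.Agent.Lib.CH48.B_NUM
import Pool.Agent.Lib.CH48.B_PHI
import Pool.Agent.Lib.CH48.B_POS
import Pool.Agent.Lib.CH48.B_SCL
import Pool.Agent.Lib.CH48.B_SQ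
import Pool.Agent.Lib.CH48.B_SUB
import Pool.Agent.Lib.CH48.B_TOR
import Pool.Agent.Lib.CH48.B_TR

namespace Pool.Agent.Lib.CH48

theorem st_MAIN : St_MAIN :=
  main_of
    (st_COM st_FIN (st_TOR st_FIN st_SCL
      (st_POS (st_BLK (st_SQ (st_TR st_HL) st_DUAL) st_ADD) st_JAC)))
    st_CNT st_KILL (st_PHI st_SUB) st_NUM

end Pool.Agent.Lib.CH48
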