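import Pool.Agent.Lib.CH48.B_KIT

namespace Pool.Agent.Lib.CH48

open Matrix

namespace ADD

variable {κ : Type} [Fintype κ] [DecidableEq κ]

theorem e_add (m m' : κ → κ → ℂ) : E (m + m') = E m + E m' := by
  simp only [E, Pi.add_apply, add_smul, Finset.sum_add_distrib]

theorem comm_e (I J : Finset κ) (m : κ → κ → ℂ) (f : Matrix (Finset κ) (Finset κ) ℂ)
    (hm : ∀ s t, m s t ≠ 0 → s ∈ I ∧ t ∈ I) (hf : Loc J f) (hIJ : Disjoint I J) :
    Commute f (E m) := by
  unfold E
  refine Commute.sum_right _ _ _ fun s _ => Commute.sum_right _ _ _ fun t _ => ?_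
  by_cases h : m s t = 0
  · rw [h, zero_smul]
    exact Commute.zero_right _
  · obtain ⟨hs, ht⟩ := hm s t h
    exact Commute.smul_right
      (Commute.mul_right (hf s (Finset.disjoint_left.1 hIJ hs)).1
        (hf t (Finset.disjoint_left.1 hIJ ht)).1) _

omit [Fintype κ] in
theorem hd_union (I J : Finset κ) (hIJ : Disjoint I J) : Hd (I ∪ J) = Hd I + Hd J := by
  unfold Hd
  rw [Matrix.diagonal_add]
  refine congrArg Matrix.diagonal (funext fun S => ?_)
  rw [Finset.card_union_of_disjoint hIJ, Finset.inter_union_distrib_left,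
    Finset.card_union_of_disjoint
      (hIJ.mono Finset.inter_subset_right Finset.inter_subset_right)]
  push_cast
  ring

end ADD

theorem st_ADD : St_ADD := by
  intro κ _ _ I J m m' h1 h2 hIJ
  obtain ⟨hm, f, hf, e1⟩ := h1
  obtain ⟨hm', g, hg, e2⟩ := h2
  refine ⟨?_, f + g, ?_, ?_⟩
  · intro s t h
    by_cases h0 : m s t = 0
    · have h3 : m' s t ≠ 0 := by
        intro h4
        apply h
        simp [h0, h4]
      exact ⟨Finset.mem_union_right _ (hm' s t h3).1, Finset.mem_union_right _ (hm' s t h3).2⟩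
    · exact ⟨Finset.mem_union_left _ (hm s t h0).1, Finset.mem_union_left _ (hm s t h0).2⟩
  · intro s hs
    rw [Finset.mem_union, not_or] at hs
    exact ⟨Commute.add_left (hf s hs.1).1 (hg s hs.2).1,
      Commute.add_left (hf s hs.1).2 (hg s hs.2).2⟩
  · have c1 : g * E m = E m * g := ADD.comm_e I J m g hm hg hIJ
    have c2 : f * E m' = E m' * f := ADD.comm_e J I m' f hm' hf hIJ.symm
    rw [ADD.e_add, ADD.hd_union I J hIJ, ← e1, ← e2, add_mul, mul_add, mul_add, add_mul,
      mul_add, mul_add, c1, c2]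
    abel

end Pool.Agent.Lib.CH48
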