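import Pool.Agent.Lib.CH48.Blue

namespace Pool.Agent.Lib.CH48

open Matrix

namespace KIT

variable {κ : Type} [Fintype κ] [DecidableEq κ]

theorem mul_left (s : κ) (M : Matrix (Finset κ) (Finset κ) ℂ) (S T : Finset κ) :
    (A s * M) S T = if s ∈ S then 0 else M (insert s S) T := by
  rw [Matrix.mul_apply]
  by_cases h : s ∈ S
  · simp [A, h]
  · simp [A, h]

theorem vec (s : κ) (v : Finset κ → ℂ) (S : Finset κ) :
    (A s *ᵥ v) S = if s ∈ S then 0 else v (insert s S) := by
  by_cases h : s ∈ S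
  · simp [A, h, Matrix.mulVec, dotProduct]
  · simp [A, h, Matrix.mulVec, dotProduct]

theorem ct (s : κ) (S T : Finset κ) :
    (A s)ᴴ S T = if s ∈ S ∧ T = S.erase s then 1 else 0 := by
  have : (s ∉ T ∧ S = insert s T) ↔ (s ∈ S ∧ T = S.erase s) := by
    constructor
    · rintro ⟨h1, rfl⟩
      exact ⟨Finset.mem_insert_self _ _, (Finset.erase_insert h1).symm⟩
    · rintro ⟨h1, rfl⟩
      exact ⟨Finset.notMem_erase _ _, (Finset.insert_erase h1).symm⟩
  simp only [Matrix.conjTranspose_apply, A, this]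
  split_ifs <;> simp

theorem ct_left (s : κ) (M : Matrix (Finset κ) (Finset κ) ℂ) (S T : Finset κ) :
    ((A s)ᴴ * M) S T = if s ∈ S then M (S.erase s) T else 0 := by
  rw [Matrix.mul_apply]
  by_cases h : s ∈ S
  · simp [ct, h, -Matrix.conjTranspose_apply]
  · simp [ct, h, -Matrix.conjTranspose_apply]

theorem aa (s t : κ) (S T : Finset κ) :
    (A s * A t) S T =
      if s ∉ S ∧ t ∉ S ∧ s ≠ t ∧ T = insert t (insert s S) then 1 else 0 := by
  rw [mul_left]
  by_cases h : s ∈ S
  · simp [h]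
  · simp only [h, if_false, A, Finset.mem_insert, not_or, not_false_eq_true, true_and]
    congr 1
    apply propext
    constructor
    · rintro ⟨⟨h1, h2⟩, h3⟩
      exact ⟨h2, fun h4 => h1 h4.symm, h3⟩
    · rintro ⟨h1, h2, h3⟩
      exact ⟨⟨fun h4 => h2 h4.symm, h1⟩, h3⟩

theorem e_apply (m : κ → κ → ℂ) (S T : Finset κ) :
    E m S T = ∑ s, ∑ t, m s t *
      if s ∉ S ∧ t ∉ S ∧ s ≠ t ∧ T = insert t (insert s S) then 1 else 0 := by
  simp only [E, Matrix.sum_apply, Matrix.smul_apply, aa, smul_eq_mul]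

end KIT

theorem st_KIT : St_KIT := by
  intro κ _ _
  refine ⟨?_, ?_, ?_, ?_, ?_, KIT.vec⟩
  · intro s t
    ext S T
    rw [KIT.aa, KIT.aa]
    congr 1
    apply propext
    constructor
    · rintro ⟨h1, h2, h3, h4⟩
      exact ⟨h2, h1, h3.symm, by rw [h4, Finset.insert_comm]⟩
    · rintro ⟨h1, h2, h3, h4⟩
      exact ⟨h2, h1, h3.symm, by rw [h4, Finset.insert_comm]⟩
  · intro s t hst
    ext S T
    rw [KIT.mul_left, KIT.ct_left, KIT.ct]
    by_cases h1 : s ∈ S <;> by_cases h2 : t ∈ S
    · simp [h1, h2, A, hst]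
    · simp [h1, h2]
    · simp [h1, h2, A, Finset.erase_insert_of_ne hst]
    · simp [h1, h2, hst.symm]
  · intro s
    ext S T
    rw [Matrix.sub_apply, KIT.mul_left, KIT.ct_left, KIT.ct, Matrix.diagonal_apply]
    by_cases h1 : s ∈ S
    · simp [h1, A, Finset.insert_erase h1, eq_comm]
      split_ifs <;> simp
    · simp [h1, Finset.erase_insert h1, eq_comm]
  · intro m S T h
    rw [KIT.e_apply] at h
    obtain ⟨s, -, h⟩ := Finset.exists_ne_zero_of_sum_ne_zero h
    obtain ⟨t, -, h⟩ := Finset.exists_ne_zero_of_sum_ne_zero h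
    have h2 := right_ne_zero_of_mul h
    by_cases h3 : s ∉ S ∧ t ∉ S ∧ s ≠ t ∧ T = insert t (insert s S)
    · obtain ⟨a, b, c, rfl⟩ := h3
      rw [Finset.card_insert_of_notMem (by simp [b, c.symm]), Finset.card_insert_of_notMem a]
    · simp [h3] at h2
  · intro m S T
    rw [KIT.e_apply, KIT.e_apply]
    refine Finset.sum_congr rfl fun s _ => Finset.sum_congr rfl fun t _ => ?_
    congr 2
    apply propext
    constructor
    · rintro ⟨h1, h2, h3, rfl⟩
      refine ⟨by simp, by simp, h3, ?_⟩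
      ext x
      simp only [Finset.mem_compl, Finset.mem_insert, not_or]
      by_cases hx : x = t
      · simp [hx, h2]
      · by_cases hy : x = s
        · simp [hy, h1]
        · simp [hx, hy]
    · rintro ⟨h1, h2, h3, h4⟩
      have h5 : ∀ x, x ∉ S ↔ (x = t ∨ x = s ∨ x ∉ T) := by
        intro x
        have := Finset.ext_iff.1 h4 x
        simpa using this
      simp only [Finset.mem_compl, not_not] at h1 h2
      refine ⟨(h5 s).2 (by simp), (h5 t).2 (by simp), h3, ?_⟩
      ext x
      simp only [Finset.mem_insert]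
      have := h5 x
      by_cases hx : x = t
      · simp [hx, h2]
      · by_cases hy : x = s
        · simp [hy, h1]
        · simp only [hx, hy, false_or] at this ⊢
          tauto

end Pool.Agent.Lib.CH48
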