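import Pool.Agent.Lib.CH48.B_KIT

namespace Pool.Agent.Lib.CH48

open Matrix

namespace SQ

variable {κ : Type} [Fintype κ] [DecidableEq κ]

/-- The signed lowering operator of a block. -/
noncomputable def U (I : Finset κ) (α : κ → ℂ) : Matrix (Finset κ) (Finset κ) ℂ :=
  ∑ s ∈ I, α s • A s

theorem e_eq (I : Finset κ) (α : κ → ℂ) :
    E (fun s t => if s ∈ I ∧ t ∈ I then α s * α t else 0) = U I α * U I α := by
  unfold E U
  rw [Finset.sum_mul_sum]
  symm
  refine Finset.sum_subset_zero_on_sdiff (Finset.subset_univ _) ?_ ?_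
  · intro s hs
    have h : s ∉ I := (Finset.mem_sdiff.1 hs).2
    simp [h]
  · intro s hs
    refine Finset.sum_subset_zero_on_sdiff (Finset.subset_univ _) ?_ ?_
    · intro t ht
      have h : t ∉ I := (Finset.mem_sdiff.1 ht).2
      simp [h]
    · intro t ht
      have h : s ∈ I ∧ t ∈ I := ⟨hs, ht⟩
      simp only [if_pos h]
      rw [smul_mul_smul_comm]

omit [Fintype κ] in
theorem u_ct (I : Finset κ) (α : κ → ℂ) (hα : ∀ s ∈ I, α s = 1 ∨ α s = -1) :
    (U I α)ᴴ = ∑ s ∈ I, α s • (A s)ᴴ := by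
  unfold U
  rw [Matrix.conjTranspose_sum]
  refine Finset.sum_congr rfl fun s hs => ?_
  rw [Matrix.conjTranspose_smul]
  rcases hα s hs with h | h <;> simp [h]

theorem bracket (I : Finset κ) (α : κ → ℂ) (hα : ∀ s ∈ I, α s = 1 ∨ α s = -1) :
    U I α * (U I α)ᴴ - (U I α)ᴴ * U I α =
      diagonal fun S => (I.card : ℂ) - 2 * ((S ∩ I).card : ℂ) := by
  obtain ⟨-, k2, k3, -⟩ := st_KIT κ
  rw [u_ct I α hα]
  unfold U
  rw [Finset.sum_mul_sum, Finset.sum_mul_sum, Finset.sum_comm (s := I) (t := I)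
    (f := fun i j => α i • (A i)ᴴ * α j • A j), ← Finset.sum_sub_distrib]
  have h1 : ∀ s ∈ I, (∑ t ∈ I, α s • A s * α t • (A t)ᴴ) - ∑ t ∈ I, α t • (A t)ᴴ * α s • A s =
      diagonal fun S : Finset κ => if s ∈ S then (-1 : ℂ) else 1 := by
    intro s hs
    rw [← Finset.sum_sub_distrib, Finset.sum_eq_single s]
    · have h2 : α s * α s = 1 := by
        rcases hα s hs with h | h <;> simp [h]
      rw [smul_mul_smul_comm, smul_mul_smul_comm, h2, one_smul, one_smul, k3]
    · intro t _ hts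
      rw [smul_mul_smul_comm, smul_mul_smul_comm, mul_comm (α t), (k2 s t hts.symm).eq, sub_self]
    · intro h
      exact (h hs).elim
  rw [Finset.sum_congr rfl h1]
  ext S T
  rw [Matrix.sum_apply]
  by_cases h : S = T
  · subst h
    simp only [Matrix.diagonal_apply_eq]
    have h3 : ∀ s ∈ I, (if s ∈ S then (-1 : ℂ) else 1) = 1 - 2 * (if s ∈ S then 1 else 0) := by
      intro s _
      split_ifs <;> norm_num
    rw [Finset.sum_congr rfl h3, Finset.sum_sub_distrib, ← Finset.mul_sum, Finset.sum_boole,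
      Finset.filter_mem_eq_inter, Finset.inter_comm]
    simp
  · simp [Matrix.diagonal_apply_ne _ h]

omit [Fintype κ] in
theorem u_ne (I : Finset κ) (α : κ → ℂ) (S T : Finset κ) (h : U I α S T ≠ 0) :
    (T ∩ I).card = (S ∩ I).card + 1 := by
  unfold U at h
  rw [Matrix.sum_apply] at h
  obtain ⟨s, hs, h⟩ := Finset.exists_ne_zero_of_sum_ne_zero h
  rw [Matrix.smul_apply, smul_eq_mul] at h
  have h2 := right_ne_zero_of_mul h
  by_cases h3 : s ∉ S ∧ T = insert s S
  · obtain ⟨a, rfl⟩ := h3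
    rw [Finset.insert_inter_of_mem hs, Finset.card_insert_of_notMem (by simp [a])]
  · simp [A, h3] at h2

theorem u_comm (I : Finset κ) (α : κ → ℂ) (s : κ) (hs : s ∉ I) :
    Commute (U I α) (A s) ∧ Commute (U I α) (A s)ᴴ := by
  obtain ⟨k1, k2, -⟩ := st_KIT κ
  unfold U
  constructor
  · exact Commute.sum_left _ _ _ fun t _ => Commute.smul_left (k1 t s) _
  · exact Commute.sum_left _ _ _ fun t ht =>
      Commute.smul_left (k2 t s (fun h => hs (h ▸ ht))) _

theorem ct_comm {N : Type} [Fintype N] (x y : Matrix N N ℂ) (h : Commute x yᴴ) :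
    Commute xᴴ y := by
  have h1 := congrArg Matrix.conjTranspose h.eq
  rw [Matrix.conjTranspose_mul, Matrix.conjTranspose_mul, Matrix.conjTranspose_conjTranspose] at h1
  exact h1.symm

end SQ

theorem st_SQ (hTR : St_TR) (hDUAL : St_DUAL) : St_SQ := by
  intro κ _ _ I α hI hα
  obtain ⟨k, hk⟩ := hI
  refine ⟨?_, ?_⟩
  · intro s t h
    by_contra h1
    exact h (if_neg h1)
  have hb := SQ.bracket I α hα
  have hH : Hd I = (1 / 2 : ℂ) • (SQ.U I α * (SQ.U I α)ᴴ - (SQ.U I α)ᴴ * SQ.U I α) := by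
    rw [hb, ← Matrix.diagonal_smul]
    unfold Hd
    refine congrArg Matrix.diagonal (funext fun S => ?_)
    simp only [Pi.smul_apply, smul_eq_mul]
    ring
  let G : Set (Matrix (Finset κ) (Finset κ) ℂ) := {g | ∃ s, s ∉ I ∧ (g = A s ∨ g = (A s)ᴴ)}
  have hG : ∀ g ∈ G, gᴴ ∈ G := by
    rintro g ⟨s, hs, rfl | rfl⟩
    · exact ⟨s, hs, Or.inr rfl⟩
    · exact ⟨s, hs, Or.inl (Matrix.conjTranspose_conjTranspose _)⟩
  have hU : ∀ g ∈ G, Commute (SQ.U I α) g := by
    rintro g ⟨s, hs, rfl | rfl⟩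
    · exact (SQ.u_comm I α s hs).1
    · exact (SQ.u_comm I α s hs).2
  have hU' : ∀ g ∈ G, Commute (SQ.U I α)ᴴ g := fun g hg => SQ.ct_comm _ _ (hU _ (hG g hg))
  have ht := hTR (Finset κ) (SQ.U I α) (fun S => (k : ℤ) - ((S ∩ I).card : ℤ))
    (by
      rw [hb]
      refine congrArg Matrix.diagonal (funext fun S => ?_)
      rw [hk]
      push_cast
      ring)
    (by
      intro S T h
      have h1 := SQ.u_ne I α S T h
      show (k : ℤ) - ((S ∩ I).card : ℤ) = (k : ℤ) - ((T ∩ I).card : ℤ) + 1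
      rw [h1]
      push_cast
      ring)
  obtain ⟨f, hf, he⟩ := hDUAL (Finset κ) (SQ.U I α * SQ.U I α) (Hd I) G hG
    (fun g hg => Commute.mul_left (hU g hg) (hU g hg))
    (fun g hg => by
      rw [hH]
      exact Commute.smul_left (Commute.sub_left (Commute.mul_left (hU g hg) (hU' g hg))
        (Commute.mul_left (hU' g hg) (hU g hg))) _)
    (fun z hz => by
      rw [← ht z hz]
      unfold Matrix.trace Hd
      refine Finset.sum_congr rfl fun S _ => ?_
      rw [Matrix.diag_apply, Matrix.diagonal_mul, hk]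
      push_cast
      ring)
  refine ⟨f, fun s hs => ⟨hf _ ⟨s, hs, Or.inl rfl⟩, hf _ ⟨s, hs, Or.inr rfl⟩⟩, ?_⟩
  rw [SQ.e_eq]
  exact he

end Pool.Agent.Lib.CH48
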