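import Mathlib

/-! Blueprint for the product rank of the permanent. -/

namespace Pool.Agent.Lib.CH48

open Matrix MvPolynomial

/-- Lowering matrix on subsets. -/
def A {κ : Type} [DecidableEq κ] (s : κ) : Matrix (Finset κ) (Finset κ) ℂ :=
  fun S T => if s ∉ S ∧ T = insert s S then 1 else 0

/-- The degree two lowering operator with coefficients `m`. -/
noncomputable def E {κ : Type} [Fintype κ] [DecidableEq κ] (m : κ → κ → ℂ) :
    Matrix (Finset κ) (Finset κ) ℂ :=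
  ∑ s, ∑ t, m s t • (A s * A t)

/-- `E m` is injective above the middle. -/
def Good {κ : Type} [Fintype κ] [DecidableEq κ] (m : κ → κ → ℂ) : Prop :=
  ∀ v : Finset κ → ℂ, (∀ S, v S ≠ 0 → Fintype.card κ + 2 ≤ 2 * S.card) → E m *ᵥ v = 0 → v = 0

/-- Coefficients of a quadratic differential operator that kills the permanent. -/
def InQ {ι : Type} (c : ι × ι → ι × ι → ℂ) : Prop :=
  ∀ a b i j, a ≠ b → i ≠ j → c (a, i) (b, j) + c (b, i) (a, j) = 0

/-- The coefficients seen by a product of linear forms. -/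
noncomputable def mm {κ ι : Type} [Fintype ι] (c : ι × ι → ι × ι → ℂ) (L : κ → ι × ι → ℂ) :
    κ → κ → ℂ :=
  fun s t => ∑ e, ∑ f, c e f * L s e * L t f

/-- `f` only acts on the indices in `I`. -/
def Loc {κ : Type} [Fintype κ] [DecidableEq κ] (I : Finset κ)
    (f : Matrix (Finset κ) (Finset κ) ℂ) : Prop :=
  ∀ s, s ∉ I → Commute f (A s) ∧ Commute f (A s)ᴴ

/-- The weight operator of a block. -/
noncomputable def Hd {κ : Type} [DecidableEq κ] (I : Finset κ) :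
    Matrix (Finset κ) (Finset κ) ℂ :=
  diagonal fun S => (I.card : ℂ) / 2 - ((S ∩ I).card : ℂ)

/-- `E m` lives on `I` and the weight operator is a commutator with it. -/
def Tri {κ : Type} [Fintype κ] [DecidableEq κ] (I : Finset κ) (m : κ → κ → ℂ) : Prop :=
  (∀ s t, m s t ≠ 0 → s ∈ I ∧ t ∈ I) ∧ ∃ f, Loc I f ∧ E m * f - f * E m = Hd I

/-- Functions supported on sets of a given parity. -/
def Vpar (κ : Type) (ε : ℕ) : Submodule ℂ (Finset κ → ℂ) where
  carrier := {v | ∀ S, S.card % 2 ≠ ε → v S = 0}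
  add_mem' := by
    intro a b ha hb S hS
    simp [ha S hS, hb S hS]
  zero_mem' := by
    intro S _
    rfl
  smul_mem' := by
    intro c a ha S hS
    simp [ha S hS]

/-- A linear form. -/
noncomputable def lf {ι : Type} [Fintype ι] (a : ι × ι → ℂ) : MvPolynomial (ι × ι) ℂ :=
  ∑ e, C (a e) * X e

/-- The permanent of the matrix of variables. -/
noncomputable def per (ι : Type) [Fintype ι] [DecidableEq ι] : MvPolynomial (ι × ι) ℂ :=
  (Matrix.of fun i j => (X (i, j) : MvPolynomial (ι × ι) ℂ)).permanent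

/-- The quadratic differential operator. -/
noncomputable def qop {ι : Type} [Fintype ι] (c : ι × ι → ι × ι → ℂ) :
    MvPolynomial (ι × ι) ℂ →ₗ[ℂ] MvPolynomial (ι × ι) ℂ :=
  ∑ e, ∑ f, c e f • ((pderiv e).toLinearMap ∘ₗ (pderiv f).toLinearMap)

def St_KIT : Prop :=
  ∀ (κ : Type) [Fintype κ] [DecidableEq κ],
    (∀ s t : κ, Commute (A s) (A t)) ∧
    (∀ s t : κ, s ≠ t → Commute (A s) (A t)ᴴ) ∧
    (∀ s : κ, A s * (A s)ᴴ - (A s)ᴴ * A s = diagonal fun S => if s ∈ S then (-1 : ℂ) else 1) ∧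
    (∀ (m : κ → κ → ℂ) (S T : Finset κ), E m S T ≠ 0 → T.card = S.card + 2) ∧
    (∀ (m : κ → κ → ℂ) (S T : Finset κ), E m S T = E m Tᶜ Sᶜ) ∧
    (∀ (s : κ) (v : Finset κ → ℂ) (S : Finset κ),
      (A s *ᵥ v) S = if s ∈ S then 0 else v (insert s S))

def St_FIN : Prop :=
  ∀ (κ : Type) [Fintype κ] [DecidableEq κ] (m : κ → κ → Polynomial ℂ) (x₀ : ℂ),
    Good (fun s t => (m s t).eval x₀) → {x : ℂ | ¬ Good (fun s t => (m s t).eval x)}.Finite

def St_SCL : Prop :=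
  ∀ (κ : Type) [Fintype κ] [DecidableEq κ] (m : κ → κ → ℂ) (u : κ → ℂ),
    (∀ s, u s ≠ 0) → Good (fun s t => u s * u t * m s t) → Good m

def St_HL : Prop :=
  ∀ (N : Type) [Fintype N] [DecidableEq N] (U : Matrix N N ℂ) (h : N → ℤ),
    U * Uᴴ - Uᴴ * U = diagonal (fun x => (2 * h x : ℂ)) → (∀ x y, U x y ≠ 0 → h x = h y + 1) →
    ∀ (j : ℕ) (v : N → ℂ), (∀ x, v x ≠ 0 → h x = -(j : ℤ)) → U ^ (2 * j) *ᵥ v = 0 → v = 0

def St_TR : Prop :=
  ∀ (N : Type) [Fintype N] [DecidableEq N] (U : Matrix N N ℂ) (h : N → ℤ),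
    U * Uᴴ - Uᴴ * U = diagonal (fun x => (2 * h x : ℂ)) → (∀ x y, U x y ≠ 0 → h x = h y + 1) →
    ∀ z : Matrix N N ℂ, Commute z (U * U) → ∑ x, (h x : ℂ) * z x x = 0

def St_DUAL : Prop :=
  ∀ (N : Type) [Fintype N] [DecidableEq N] (e H : Matrix N N ℂ) (G : Set (Matrix N N ℂ)),
    (∀ g ∈ G, gᴴ ∈ G) → (∀ g ∈ G, Commute e g) → (∀ g ∈ G, Commute H g) →
    (∀ z : Matrix N N ℂ, Commute z e → trace (H * z) = 0) →
    ∃ f, (∀ g ∈ G, Commute f g) ∧ e * f - f * e = H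

def St_SQ : Prop :=
  ∀ (κ : Type) [Fintype κ] [DecidableEq κ] (I : Finset κ) (α : κ → ℂ),
    Even I.card → (∀ s ∈ I, α s = 1 ∨ α s = -1) →
    Tri I (fun s t => if s ∈ I ∧ t ∈ I then α s * α t else 0)

def St_ADD : Prop :=
  ∀ (κ : Type) [Fintype κ] [DecidableEq κ] (I J : Finset κ) (m m' : κ → κ → ℂ),
    Tri I m → Tri J m' → Disjoint I J → Tri (I ∪ J) (m + m')

def St_JAC : Prop :=
  ∀ (κ : Type) [Fintype κ] [DecidableEq κ] (m : κ → κ → ℂ), Tri Finset.univ m → Good m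

def St_BLK : Prop :=
  ∀ (κ ι : Type) [Fintype κ] [DecidableEq κ] [Fintype ι] [DecidableEq ι] (p : κ → ι × ι),
    Even (Fintype.card κ) →
    ∃ c, InQ c ∧ Tri Finset.univ (fun s t => c (p s) (p t))

def St_POS : Prop :=
  ∀ (κ ι : Type) [Fintype κ] [DecidableEq κ] [Fintype ι] [DecidableEq ι] (p : κ → ι × ι),
    ∃ c, InQ c ∧ Good (fun s t => c (p s) (p t))

def St_TOR : Prop :=
  ∀ (κ : Type) [Fintype κ] [DecidableEq κ] (n : ℕ) (L : κ → Fin n × Fin n → ℂ),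
    (∀ s, L s ≠ 0) → ∃ c, InQ c ∧ Good (mm c L)

def St_COM : Prop :=
  ∀ (κ K : Type) [Fintype κ] [DecidableEq κ] [Fintype K] (n : ℕ)
    (L : K → κ → Fin n × Fin n → ℂ),
    (∀ k s, L k s ≠ 0) → Nonempty K → ∃ c, InQ c ∧ ∀ k, Good (mm c (L k))

def St_CNT : Prop :=
  ∀ (κ : Type) [Fintype κ] [DecidableEq κ] (m : κ → κ → ℂ), 0 < Fintype.card κ → Good m →
    Module.finrank ℂ
        ↥(LinearMap.ker (Matrix.mulVecLin (E m)) ⊓ Vpar κ ((Fintype.card κ / 2 + 1) % 2)) ≤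
      (Fintype.card κ).choose (Fintype.card κ / 2 + 1)

def St_KILL : Prop :=
  ∀ (ι : Type) [Fintype ι] [DecidableEq ι] (c : ι × ι → ι × ι → ℂ), InQ c → qop c (per ι) = 0

def St_SUB : Prop :=
  ∀ (ι : Type) [Fintype ι] [DecidableEq ι] (Z : ℕ → Submodule ℂ (MvPolynomial (ι × ι) ℂ))
    (W : Submodule ℂ (MvPolynomial (ι × ι) ℂ)) [Module.Finite ℂ W] (ε : ℕ),
    per ι ∈ Z (Fintype.card ι) → (∀ d e p, p ∈ Z (d + 1) → pderiv e p ∈ Z d) →
    (∀ d, d % 2 = ε → Z d ≤ W) →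
    ∑ d ∈ (Finset.range (Fintype.card ι + 1)).filter (fun d => d % 2 = ε),
      (Fintype.card ι).choose d ^ 2 ≤ Module.finrank ℂ W

def St_PHI : Prop :=
  ∀ (ι K : Type) [Fintype ι] [DecidableEq ι] [Fintype K] (L : K → ι → ι × ι → ℂ)
    (c : ι × ι → ι × ι → ℂ) (ε B : ℕ),
    per ι = ∑ k, ∏ s, lf (L k s) → qop c (per ι) = 0 →
    (∀ k, Module.finrank ℂ
      ↥(LinearMap.ker (Matrix.mulVecLin (E (mm c (L k)))) ⊓ Vpar ι ε) ≤ B) →
    ∑ d ∈ (Finset.range (Fintype.card ι + 1)).filter (fun d => d % 2 = ε),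
      (Fintype.card ι).choose d ^ 2 ≤ Fintype.card K * B

def St_NUM : Prop :=
  ∀ n r : ℕ, 0 < n →
    ∑ d ∈ (Finset.range (n + 1)).filter (fun d => d % 2 = (n / 2 + 1) % 2), n.choose d ^ 2 ≤
      r * n.choose (n / 2 + 1) → 4 ^ n ≤ 2 * (2 * r + 1) ^ 2

def St_MAIN : Prop :=
  ∀ (n r : ℕ) (a : Fin r → Fin n → Fin n × Fin n → ℂ), 0 < n →
    (Matrix.of fun i j => (X (i, j) : MvPolynomial (Fin n × Fin n) ℂ)).permanent =
      ∑ k, ∏ s, ∑ e, C (a k s e) * X e →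
    (∑ d ∈ (Finset.range (n + 1)).filter (fun d => d % 2 = (n / 2 + 1) % 2), n.choose d ^ 2 ≤
      r * n.choose (n / 2 + 1)) ∧ 4 ^ n ≤ 2 * (2 * r + 1) ^ 2

theorem main_of (hCOM : St_COM) (hCNT : St_CNT) (hKILL : St_KILL) (hPHI : St_PHI)
    (hNUM : St_NUM) : St_MAIN := by
  classical
  intro n r a hn h
  have key : ∑ d ∈ (Finset.range (n + 1)).filter (fun d => d % 2 = (n / 2 + 1) % 2),
      n.choose d ^ 2 ≤ r * n.choose (n / 2 + 1) := by
    let K := {k : Fin r // ∀ s, a k s ≠ 0}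
    have hK : per (Fin n) = ∑ k : K, ∏ s, lf (a k.1 s) := by
      have h1 : per (Fin n) = ∑ k, ∏ s, lf (a k s) := h
      rw [h1, ← Finset.sum_subtype (Finset.univ.filter fun k => ∀ s, a k s ≠ 0) (by simp)
        (fun k => ∏ s, lf (a k s))]
      symm
      apply Finset.sum_subset (Finset.filter_subset _ _)
      intro k _ hk
      simp only [Finset.mem_filter, Finset.mem_univ, true_and, not_forall, not_not] at hk
      obtain ⟨s, hs⟩ := hk
      exact Finset.prod_eq_zero (Finset.mem_univ s) (by simp [lf, hs])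
    have hc : ∃ c : Fin n × Fin n → Fin n × Fin n → ℂ,
        InQ c ∧ ∀ k : K, Good (mm c (a k.1)) := by
      rcases isEmpty_or_nonempty K with h0 | h0
      · exact ⟨0, fun _ _ _ _ _ _ => by simp, fun k => (h0.false k).elim⟩
      · exact hCOM (Fin n) K n (fun k => a k.1) (fun k => k.2) h0
    obtain ⟨c, hc, hg⟩ := hc
    have h2 := hPHI (Fin n) K (fun k => a k.1) c ((n / 2 + 1) % 2) (n.choose (n / 2 + 1)) hK
      (hKILL _ c hc) (fun k => by
        have h3 := hCNT (Fin n) _ (by simpa using hn) (hg k)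
        rw [Fintype.card_fin] at h3
        exact h3)
    simp only [Fintype.card_fin] at h2
    refine h2.trans (Nat.mul_le_mul_right _ ?_)
    simpa using Fintype.card_subtype_le (fun k : Fin r => ∀ s, a k s ≠ 0)
  exact ⟨key, hNUM n r hn key⟩

end Pool.Agent.Lib.CH48
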